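import Pool.Agent.W240.BK.Var

/-! The fluctuation of the self-energy. -/

set_option autoImplicit false
set_option linter.unusedSectionVars false

open scoped BigOperators Matrix
open MeasureTheory

namespace Pool.Agent.W240.BK

open Pool.Agent.W788.BK

section basic

variable {n m : Type} [Fintype n] [DecidableEq n] [Fintype m] [DecidableEq m]

/-- bounded continuous functions -/
def BC (F : (m → ℝ) → ℂ) : Prop := Continuous F ∧ ∃ C : ℝ, ∀ V, ‖F V‖ ≤ C

theorem BC.integrable {F : (m → ℝ) → ℂ} (h : BC F) (μ : Measure ℝ) [IsProbabilityMeasure μ] :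
    Integrable F (PP m μ) := by
  obtain ⟨h1, C, hC⟩ := h
  exact Integrable.of_bound h1.aestronglyMeasurable C (Filter.Eventually.of_forall hC)

theorem BC.const (c : ℂ) : BC (m := m) fun _ => c := ⟨continuous_const, ‖c‖, fun _ => le_rfl⟩

theorem BC.add {F G : (m → ℝ) → ℂ} (hF : BC F) (hG : BC G) : BC fun V => F V + G V := by
  obtain ⟨h1, C, hC⟩ := hF
  obtain ⟨h2, D, hD⟩ := hG
  exact ⟨h1.add h2, C + D, fun V => (norm_add_le _ _).trans (add_le_add (hC V) (hD V))⟩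

theorem BC.sub {F G : (m → ℝ) → ℂ} (hF : BC F) (hG : BC G) : BC fun V => F V - G V := by
  obtain ⟨h1, C, hC⟩ := hF
  obtain ⟨h2, D, hD⟩ := hG
  exact ⟨h1.sub h2, C + D, fun V => (norm_sub_le _ _).trans (add_le_add (hC V) (hD V))⟩

theorem BC.mul {F G : (m → ℝ) → ℂ} (hF : BC F) (hG : BC G) : BC fun V => F V * G V := by
  obtain ⟨h1, C, hC⟩ := hF
  obtain ⟨h2, D, hD⟩ := hG
  refine ⟨h1.mul h2, C * D, fun V => ?_⟩
  rw [norm_mul]
  exact mul_le_mul (hC V) (hD V) (norm_nonneg _) ((norm_nonneg _).trans (hC V))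

theorem BC.sum {ι : Type} (s : Finset ι) {F : ι → (m → ℝ) → ℂ} (hF : ∀ i ∈ s, BC (F i)) :
    BC fun V => ∑ i ∈ s, F i V := by
  classical
  induction s using Finset.induction_on with
  | empty => simpa using BC.const (m := m) 0
  | insert a s ha ih =>
    have h1 : (fun V => ∑ i ∈ insert a s, F i V) = fun V => F a V + ∑ i ∈ s, F i V := by
      funext V
      rw [Finset.sum_insert ha]
    rw [h1]
    exact (hF a (Finset.mem_insert_self _ _)).add
      (ih fun i hi => hF i (Finset.mem_insert_of_mem hi))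

/-- bounded continuous matrix functions -/
def BM (B : (m → ℝ) → Matrix n n ℂ) : Prop := ∀ i j, BC fun V => B V i j

theorem BM.const (C : Matrix n n ℂ) : BM (m := m) fun _ => C := fun i j => BC.const (C i j)

theorem BM.sub {B C : (m → ℝ) → Matrix n n ℂ} (hB : BM B) (hC : BM C) :
    BM fun V => B V - C V := fun i j => (hB i j).sub (hC i j)

theorem BM.mul {B C : (m → ℝ) → Matrix n n ℂ} (hB : BM B) (hC : BM C) :
    BM fun V => B V * C V := fun i j => by
  simp only [Matrix.mul_apply]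
  exact BC.sum _ fun k _ => (hB i k).mul (hC k j)

theorem BM.psi {B : (m → ℝ) → Matrix n n ℂ} (hB : BM B) (A : m → Matrix n n ℂ) :
    BM fun V => Psi A (B V) := fun i j => by
  unfold Psi
  simp only [Matrix.sum_apply]
  exact BC.sum _ fun y _ => (((BM.const (A y)).mul hB).mul (BM.const (A y))) i j

theorem BM.vec {B : (m → ℝ) → Matrix n n ℂ} (hB : BM B) (g : n → ℂ) (i : n) :
    BC fun V => (B V *ᵥ g) i := by
  simp only [Matrix.mulVec, dotProduct]
  exact BC.sum _ fun k _ => (hB i k).mul (BC.const (g k))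

theorem BM.dot {B : (m → ℝ) → Matrix n n ℂ} (hB : BM B) (f g : n → ℂ) :
    BC fun V => f ⬝ᵥ (B V *ᵥ g) := by
  simp only [dotProduct]
  exact BC.sum _ fun k _ => (BC.const (f k)).mul (hB.vec g k)

theorem BM.trace {B : (m → ℝ) → Matrix n n ℂ} (hB : BM B) :
    BC fun V => (B V).trace := by
  simp only [Matrix.trace]
  exact BC.sum _ fun k _ => hB k k

/-- the entrywise integral commutes with linear forms -/
theorem int_lin (μ : Measure ℝ) [IsProbabilityMeasure μ] {B : (m → ℝ) → Matrix n n ℂ}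
    (hB : BM B) (ℓ : Matrix n n ℂ →ₗ[ℂ] ℂ) :
    ∫ V, ℓ (B V) ∂(PP m μ) = ℓ (Matrix.of fun i j => ∫ V, B V i j ∂(PP m μ)) := by
  have h1 : ∀ C : Matrix n n ℂ, ℓ C = ∑ i, ∑ j, C i j * ℓ (Matrix.single i j 1) := by
    intro C
    conv_lhs => rw [Matrix.matrix_eq_sum_single C]
    rw [map_sum]
    refine Finset.sum_congr rfl fun i _ => ?_
    rw [map_sum]
    refine Finset.sum_congr rfl fun j _ => ?_
    have e1 : Matrix.single i j (C i j) = C i j • Matrix.single i j (1 : ℂ) := by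
      rw [Matrix.smul_single]
      simp
    rw [e1, map_smul, smul_eq_mul]
  rw [h1]
  simp only [h1 (B _), Matrix.of_apply]
  rw [integral_finsetSum _ fun i _ => integrable_finsetSum _ fun j _ =>
    ((hB i j).integrable μ).mul_const _]
  refine Finset.sum_congr rfl fun i _ => ?_
  rw [integral_finsetSum _ fun j _ => ((hB i j).integrable μ).mul_const _]
  refine Finset.sum_congr rfl fun j _ => ?_
  rw [integral_mul_const]

theorem Psi_add (A : m → Matrix n n ℂ) (B C : Matrix n n ℂ) :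
    Psi A (B + C) = Psi A B + Psi A C := by
  unfold Psi
  rw [← Finset.sum_add_distrib]
  exact Finset.sum_congr rfl fun y _ => by rw [mul_add, add_mul]

theorem Psi_smul (A : m → Matrix n n ℂ) (c : ℂ) (B : Matrix n n ℂ) :
    Psi A (c • B) = c • Psi A B := by
  unfold Psi
  rw [Finset.smul_sum]
  exact Finset.sum_congr rfl fun y _ => by rw [mul_smul_comm, smul_mul_assoc]

theorem Psi_sub (A : m → Matrix n n ℂ) (B C : Matrix n n ℂ) :
    Psi A (B - C) = Psi A B - Psi A C := by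
  unfold Psi
  rw [← Finset.sum_sub_distrib]
  exact Finset.sum_congr rfl fun y _ => by rw [mul_sub, sub_mul]

/-- the linear form `B ↦ <f, B g>` -/
noncomputable def l3 (f g : n → ℂ) : Matrix n n ℂ →ₗ[ℂ] ℂ where
  toFun B := star f ⬝ᵥ (B *ᵥ g)
  map_add' B C := by rw [Matrix.add_mulVec, dotProduct_add]
  map_smul' c B := by rw [Matrix.smul_mulVec, dotProduct_smul, RingHom.id_apply]

/-- the linear form `B ↦ <f, Psi(B) M g>` -/
noncomputable def l1 (A : m → Matrix n n ℂ) (M : Matrix n n ℂ) (f g : n → ℂ) :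
    Matrix n n ℂ →ₗ[ℂ] ℂ where
  toFun B := l3 f g (Psi A B * M)
  map_add' B C := by rw [Psi_add, add_mul, map_add]
  map_smul' c B := by rw [Psi_smul, smul_mul_assoc, map_smul, RingHom.id_apply]

/-- the linear form `B ↦ <f, Psi(M) B g>` -/
noncomputable def l2 (A : m → Matrix n n ℂ) (M : Matrix n n ℂ) (f g : n → ℂ) :
    Matrix n n ℂ →ₗ[ℂ] ℂ where
  toFun B := l3 f g (Psi A M * B)
  map_add' B C := by rw [mul_add, map_add]
  map_smul' c B := by rw [mul_smul_comm, map_smul, RingHom.id_apply]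

/-- the linear form `B ↦ (B g)_i` -/
noncomputable def l4 (g : n → ℂ) (i : n) : Matrix n n ℂ →ₗ[ℂ] ℂ where
  toFun B := (B *ᵥ g) i
  map_add' B C := by rw [Matrix.add_mulVec, Pi.add_apply]
  map_smul' c B := by rw [Matrix.smul_mulVec, Pi.smul_apply, RingHom.id_apply]

/-- the linear form `B ↦ tr (B Z)` -/
noncomputable def l5 (Z : Matrix n n ℂ) : Matrix n n ℂ →ₗ[ℂ] ℂ where
  toFun B := (B * Z).trace
  map_add' B C := by rw [add_mul, Matrix.trace_add]
  map_smul' c B := by rw [smul_mul_assoc, Matrix.trace_smul, RingHom.id_apply]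

/-- Cauchy-Schwarz for integrals -/
theorem cs_int (μ : Measure ℝ) [IsProbabilityMeasure μ] {a b : (m → ℝ) → ℝ}
    (h1 : Integrable (fun V => a V ^ 2) (PP m μ)) (h2 : Integrable (fun V => b V ^ 2) (PP m μ))
    (h3 : Integrable (fun V => a V * b V) (PP m μ)) :
    (∫ V, a V * b V ∂(PP m μ)) ^ 2 ≤ (∫ V, a V ^ 2 ∂(PP m μ)) * ∫ V, b V ^ 2 ∂(PP m μ) := by
  have key : ∀ x : ℝ, 0 ≤ (∫ V, a V ^ 2 ∂(PP m μ)) * (x * x) +
      (2 * ∫ V, a V * b V ∂(PP m μ)) * x + ∫ V, b V ^ 2 ∂(PP m μ) := by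
    intro x
    have e1 : (∫ V, a V ^ 2 ∂(PP m μ)) * (x * x) +
      (2 * ∫ V, a V * b V ∂(PP m μ)) * x + ∫ V, b V ^ 2 ∂(PP m μ) =
      ∫ V, (x * a V + b V) ^ 2 ∂(PP m μ) := by
      have e2 : (fun V => (x * a V + b V) ^ 2) =
        fun V => (x * x) * a V ^ 2 + (2 * x) * (a V * b V) + b V ^ 2 := by
        funext V
        ring
      rw [e2, integral_add, integral_add, integral_const_mul, integral_const_mul]
      · ring
      · exact h1.const_mul _
      · exact h3.const_mul _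
      · exact (h1.const_mul _).add (h3.const_mul _)
      · exact h2
    rw [e1]
    exact integral_nonneg fun V => sq_nonneg _
  have := discrim_le_zero key
  unfold discrim at this
  nlinarith

/-- the variance is at most the second moment -/
theorem var_le (μ : Measure ℝ) [IsProbabilityMeasure μ] {c : (m → ℝ) → ℂ} (hc : BC c) :
    ∫ V, ‖c V - ∫ U, c U ∂(PP m μ)‖ ^ 2 ∂(PP m μ) ≤ ∫ V, ‖c V‖ ^ 2 ∂(PP m μ) := by
  obtain ⟨e, he⟩ : ∃ e, e = ∫ U, c U ∂(PP m μ) := ⟨_, rfl⟩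
  rw [← he]
  have h1 : ∀ V, ‖c V - e‖ ^ 2 = ‖c V‖ ^ 2 - 2 * (c V * (starRingEnd ℂ) e).re + ‖e‖ ^ 2 := by
    intro V
    rw [← Complex.normSq_eq_norm_sq, ← Complex.normSq_eq_norm_sq, ← Complex.normSq_eq_norm_sq,
      Complex.normSq_sub]
    ring
  simp only [h1]
  have i1 : Integrable (fun V => ‖c V‖ ^ 2) (PP m μ) := by
    obtain ⟨g1, C, hC⟩ := hc
    refine Integrable.of_bound (g1.norm.pow 2).aestronglyMeasurable (C ^ 2)
      (Filter.Eventually.of_forall fun V => ?_)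
    rw [Real.norm_of_nonneg (by positivity)]
    exact pow_le_pow_left₀ (norm_nonneg _) (hC V) 2
  have i2 : Integrable (fun V => (c V * (starRingEnd ℂ) e).re) (PP m μ) :=
    ((hc.integrable μ).mul_const _).re
  have i3 : Integrable (fun V => 2 * (c V * (starRingEnd ℂ) e).re) (PP m μ) := i2.const_mul 2
  have i4 : Integrable (fun V => ‖c V‖ ^ 2 - 2 * (c V * (starRingEnd ℂ) e).re) (PP m μ) :=
    i1.sub i3
  rw [integral_add i4 (integrable_const _), integral_sub i1 i3, integral_const_mul]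
  have h2 : ∫ V, (c V * (starRingEnd ℂ) e).re ∂(PP m μ) = ‖e‖ ^ 2 := by
    have e1 : ∫ V, (c V * (starRingEnd ℂ) e).re ∂(PP m μ) =
        (∫ V, c V * (starRingEnd ℂ) e ∂(PP m μ)).re :=
      integral_re ((hc.integrable μ).mul_const _)
    rw [e1, integral_mul_const, ← he, Complex.mul_conj, Complex.ofReal_re,
      Complex.normSq_eq_norm_sq]
  rw [h2, integral_const, smul_eq_mul, probReal_univ]
  have := sq_nonneg ‖e‖
  linarith

/-- duality -/
theorem hs_comb {X0 : Matrix n n ℂ} {A : m → Matrix n n ℂ} {a v2 Q : ℝ}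
    (h : Adm X0 A a v2 Q) (c : m → ℂ) :
    hs (∑ y, c y • A y) ≤ Q * ∑ y, ‖c y‖ ^ 2 := by
  obtain ⟨B, hB⟩ : ∃ B, B = ∑ y, c y • A y := ⟨_, rfl⟩
  rw [← hB]
  have h1 : ((hs B : ℝ) : ℂ) = ∑ y, c y * (A y * Bᴴ).trace := by
    have e0 : ((hs B : ℝ) : ℂ) = ((∑ y, c y • A y) * Bᴴ).trace := by
      rw [hs_trace, Matrix.trace_mul_comm, ← hB]
    rw [e0, Finset.sum_mul, Matrix.trace_sum]
    refine Finset.sum_congr rfl fun y _ => ?_
    rw [smul_mul_assoc, Matrix.trace_smul, smul_eq_mul]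
  have h2 : (hs B) ^ 2 ≤ (∑ y, ‖c y‖ ^ 2) * (Q * hs B) := by
    have e1 : hs B = ‖((hs B : ℝ) : ℂ)‖ := by
      rw [Complex.norm_real, Real.norm_of_nonneg (hs_nonneg _)]
    have e2 : hs B ≤ ∑ y, ‖c y‖ * ‖(A y * Bᴴ).trace‖ := by
      rw [e1, h1]
      refine (norm_sum_le _ _).trans (Finset.sum_le_sum fun y _ => ?_)
      rw [norm_mul]
    calc hs B ^ 2 ≤ (∑ y, ‖c y‖ * ‖(A y * Bᴴ).trace‖) ^ 2 :=
          pow_le_pow_left₀ (hs_nonneg _) e2 2
      _ ≤ (∑ y, ‖c y‖ ^ 2) * ∑ y, ‖(A y * Bᴴ).trace‖ ^ 2 :=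
          Finset.sum_mul_sq_le_sq_mul_sq _ _ _
      _ ≤ (∑ y, ‖c y‖ ^ 2) * (Q * hs B) := by
          refine mul_le_mul_of_nonneg_left ?_ (Finset.sum_nonneg fun _ _ => by positivity)
          have := h.hQ Bᴴ
          rwa [hs_conj] at this
  rcases (hs_nonneg B).eq_or_lt with h4 | h4
  · rw [← h4]
    exact mul_nonneg h.hQ0 (Finset.sum_nonneg fun _ _ => by positivity)
  · rw [sq, ← mul_assoc] at h2
    have := le_of_mul_le_mul_right h2 h4
    linarith

/-- the matrices `Z_i` -/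
noncomputable def ZZ (A : m → Matrix n n ℂ) (f : n → ℂ) (i : n) : Matrix n n ℂ :=
  ∑ y, Matrix.vecMulVec (fun k => A y k i) (star (A y *ᵥ f))

theorem sum_ZZ {X0 : Matrix n n ℂ} {A : m → Matrix n n ℂ} {a v2 Q : ℝ}
    (h : Adm X0 A a v2 Q) (f : n → ℂ) (hf : nsq f = 1) : ∑ i, hs (ZZ A f i) ≤ Q * v2 := by
  have h1 : ∑ i, hs (ZZ A f i) = ∑ k, hs (∑ y, (star (A y *ᵥ f)) k • A y) := by
    have e1 : ∀ i j k, ZZ A f i j k = (∑ y, (star (A y *ᵥ f)) k • A y) j i := by
      intro i j k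
      unfold ZZ
      rw [Matrix.sum_apply, Matrix.sum_apply]
      refine Finset.sum_congr rfl fun y _ => ?_
      rw [Matrix.vecMulVec_apply, Matrix.smul_apply, smul_eq_mul, mul_comm]
    have e2 : ∑ i, hs (ZZ A f i) =
        ∑ i, ∑ j, ∑ k, ‖(∑ y, (star (A y *ᵥ f)) k • A y) j i‖ ^ 2 := by
      unfold hs
      refine Finset.sum_congr rfl fun i _ => Finset.sum_congr rfl fun j _ =>
        Finset.sum_congr rfl fun k _ => ?_
      rw [e1]
    rw [e2]
    have e3 : ∀ i, ∑ j, ∑ k, ‖(∑ y, (star (A y *ᵥ f)) k • A y) j i‖ ^ 2 =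
        ∑ k, ∑ j, ‖(∑ y, (star (A y *ᵥ f)) k • A y) j i‖ ^ 2 := fun i => Finset.sum_comm
    rw [Finset.sum_congr rfl fun i _ => e3 i, Finset.sum_comm]
    refine Finset.sum_congr rfl fun k _ => ?_
    unfold hs
    rw [Finset.sum_comm]
  rw [h1]
  calc ∑ k, hs (∑ y, (star (A y *ᵥ f)) k • A y) ≤
      ∑ k, Q * ∑ y, ‖(star (A y *ᵥ f)) k‖ ^ 2 := Finset.sum_le_sum fun k _ => hs_comb h _
    _ = Q * ∑ y, nsq (A y *ᵥ f) := by
        rw [← Finset.mul_sum, Finset.sum_comm]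
        congr 1
        refine Finset.sum_congr rfl fun y _ => ?_
        unfold nsq
        refine Finset.sum_congr rfl fun k _ => ?_
        rw [Pi.star_apply, norm_star]
    _ ≤ Q * (v2 * nsq f) := mul_le_mul_of_nonneg_left (h.hv f) h.hQ0
    _ = Q * v2 := by rw [hf, mul_one]

/-- the entries of `Psi(B)ᴴ f` -/
theorem psi_entry {A : m → Matrix n n ℂ} (hA : ∀ y, (A y).IsHermitian) (B : Matrix n n ℂ)
    (f : n → ℂ) (i : n) : ‖((Psi A B)ᴴ *ᵥ f) i‖ = ‖(B * ZZ A f i).trace‖ := by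
  have h1 : star (((Psi A B)ᴴ *ᵥ f) i) = star f ⬝ᵥ (Psi A B *ᵥ Pi.single i 1) := by
    rw [adjoint]
    simp [Matrix.mulVec_single_one]
  have h2 : star f ⬝ᵥ (Psi A B *ᵥ Pi.single i 1) = (B * ZZ A f i).trace := by
    unfold Psi ZZ
    rw [Matrix.sum_mulVec, Finset.mul_sum, Matrix.trace_sum]
    rw [dotProduct_sum]
    refine Finset.sum_congr rfl fun y _ => ?_
    rw [trace_rank, ← Matrix.mulVec_mulVec, ← Matrix.mulVec_mulVec, herm (hA y)]
    have e1 : A y *ᵥ Pi.single i 1 = fun k => A y k i := by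
      rw [Matrix.mulVec_single_one]
      rfl
    rw [e1]
  rw [← norm_star, h1, h2]

end basic

theorem fluct (h : S_VAR) : S_FLUCT := by
  intro n m _ _ _ _ X0 A a v2 Q hadm μ _ β η hβ hμ hη hη1 hv f g hf hg
  obtain ⟨R, hR⟩ : ∃ R, R = RR X0 A η := ⟨_, rfl⟩
  obtain ⟨M, hM⟩ : ∃ M, M = MM X0 A η μ := ⟨_, rfl⟩
  have hM' : M = Matrix.of fun i j => ∫ V, R V i j ∂(PP m μ) := by rw [hM, hR]; rfl
  have bR : BM R := by
    intro i j
    rw [hR]
    exact ⟨(continuous_apply j).comp ((continuous_apply i).comp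
      (continuous_RR hadm.hX0 hadm.hA hη)), η⁻¹, fun V => RR_entry hadm.hX0 hadm.hA hη V i j⟩
  have bR0 : BM fun V => R V - M := bR.sub (BM.const M)
  have bP : BM fun V => Psi A (R V - M) := bR0.psi A
  have bPR : BM fun V => Psi A (R V) * R V := (bR.psi A).mul bR
  have hSE : SE X0 A η μ = Matrix.of fun i j => ∫ V, (Psi A (R V) * R V) i j ∂(PP m μ) := by
    rw [hR]
    rfl
  -- the quantity as an integral
  have key : star f ⬝ᵥ ((SE X0 A η μ - Psi A (MM X0 A η μ) * MM X0 A η μ) *ᵥ g) =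
      ∫ V, star f ⬝ᵥ ((Psi A (R V - M) * (R V - M)) *ᵥ g) ∂(PP m μ) := by
    rw [← hM]
    have e1 : ∀ V, star f ⬝ᵥ ((Psi A (R V - M) * (R V - M)) *ᵥ g) =
        l3 f g (Psi A (R V) * R V) - l1 A M f g (R V) - l2 A M f g (R V) +
          l3 f g (Psi A M * M) := by
      intro V
      have e2 : Psi A (R V - M) * (R V - M) = Psi A (R V) * R V - Psi A (R V) * M -
          Psi A M * R V + Psi A M * M := by
        rw [Psi_sub, sub_mul, mul_sub, mul_sub]
        abel
      have e3 : star f ⬝ᵥ ((Psi A (R V - M) * (R V - M)) *ᵥ g) =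
        l3 f g (Psi A (R V - M) * (R V - M)) := rfl
      rw [e3, e2, map_add, map_sub, map_sub]
      rfl
    simp only [e1]
    have c3 : BC fun V => l3 f g (Psi A (R V) * R V) := bPR.dot (star f) g
    have c1 : BC fun V => l1 A M f g (R V) := ((bR.psi A).mul (BM.const M)).dot (star f) g
    have c2 : BC fun V => l2 A M f g (R V) := ((BM.const (Psi A M)).mul bR).dot (star f) g
    have j1 : Integrable (fun V => l3 f g (Psi A (R V) * R V) - l1 A M f g (R V)) (PP m μ) :=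
      (c3.integrable μ).sub (c1.integrable μ)
    have j2 : Integrable (fun V => l3 f g (Psi A (R V) * R V) - l1 A M f g (R V) -
      l2 A M f g (R V)) (PP m μ) := j1.sub (c2.integrable μ)
    rw [integral_add j2 (integrable_const _), integral_sub j1
      (c2.integrable μ), integral_sub (c3.integrable μ) (c1.integrable μ),
      int_lin μ bPR (l3 f g), int_lin μ bR (l1 A M f g), int_lin μ bR (l2 A M f g), ← hM',
      ← hSE, integral_const, probReal_univ, one_smul]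
    have e4 : l1 A M f g M = l3 f g (Psi A M * M) := rfl
    have e5 : l2 A M f g M = l3 f g (Psi A M * M) := rfl
    have e6 : star f ⬝ᵥ ((SE X0 A η μ - Psi A M * M) *ᵥ g) =
      l3 f g (SE X0 A η μ - Psi A M * M) := rfl
    rw [e4, e5, e6, map_sub]
    ring
  rw [key]
  -- the two factors
  obtain ⟨a1, ha1⟩ : ∃ a1 : (m → ℝ) → ℝ, a1 = fun V =>
    Real.sqrt (nsq ((Psi A (R V - M))ᴴ *ᵥ f)) := ⟨_, rfl⟩
  obtain ⟨b1, hb1⟩ : ∃ b1 : (m → ℝ) → ℝ, b1 = fun V =>
    Real.sqrt (nsq ((R V - M) *ᵥ g)) := ⟨_, rfl⟩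
  have sa : ∀ V, a1 V ^ 2 = ∑ i, ‖((R V - M) * ZZ A f i).trace‖ ^ 2 := by
    intro V
    rw [ha1]
    simp only
    rw [Real.sq_sqrt (nsq_nonneg _)]
    unfold nsq
    exact Finset.sum_congr rfl fun i _ => by rw [psi_entry hadm.hA]
  have sb : ∀ V, b1 V ^ 2 = ∑ i, ‖((R V - M) *ᵥ g) i‖ ^ 2 := by
    intro V
    rw [hb1]
    simp only
    rw [Real.sq_sqrt (nsq_nonneg _)]
    rfl
  have bt : ∀ i, BC fun V => ((R V - M) * ZZ A f i).trace := fun i =>
    (bR0.mul (BM.const _)).trace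
  have bv : ∀ i, BC fun V => ((R V - M) *ᵥ g) i := fun i => bR0.vec g i
  have sqint : ∀ c : (m → ℝ) → ℂ, BC c → Integrable (fun V => ‖c V‖ ^ 2) (PP m μ) ∧
      Continuous (fun V => ‖c V‖ ^ 2) ∧ ∃ C : ℝ, ∀ V, ‖c V‖ ^ 2 ≤ C := by
    intro c hc
    obtain ⟨g1, C, hC⟩ := hc
    refine ⟨Integrable.of_bound (g1.norm.pow 2).aestronglyMeasurable (C ^ 2)
      (Filter.Eventually.of_forall fun V => ?_), g1.norm.pow 2, C ^ 2, fun V =>
      pow_le_pow_left₀ (norm_nonneg _) (hC V) 2⟩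
    rw [Real.norm_of_nonneg (by positivity)]
    exact pow_le_pow_left₀ (norm_nonneg _) (hC V) 2
  have ia : Integrable (fun V => a1 V ^ 2) (PP m μ) := by
    simp only [sa]
    exact integrable_finsetSum _ fun i _ => (sqint _ (bt i)).1
  have ib : Integrable (fun V => b1 V ^ 2) (PP m μ) := by
    simp only [sb]
    exact integrable_finsetSum _ fun i _ => (sqint _ (bv i)).1
  have ca : Continuous fun V => a1 V ^ 2 := by
    simp only [sa]
    exact continuous_finsetSum _ fun i _ => (sqint _ (bt i)).2.1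
  have cb : Continuous fun V => b1 V ^ 2 := by
    simp only [sb]
    exact continuous_finsetSum _ fun i _ => (sqint _ (bv i)).2.1
  have a0 : ∀ V, 0 ≤ a1 V := fun V => by rw [ha1]; exact Real.sqrt_nonneg _
  have b0 : ∀ V, 0 ≤ b1 V := fun V => by rw [hb1]; exact Real.sqrt_nonneg _
  have ca' : Continuous a1 := by
    have : a1 = fun V => Real.sqrt (a1 V ^ 2) := by
      funext V
      rw [Real.sqrt_sq (a0 V)]
    rw [this]
    exact ca.sqrt
  have cb' : Continuous b1 := by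
    have : b1 = fun V => Real.sqrt (b1 V ^ 2) := by
      funext V
      rw [Real.sqrt_sq (b0 V)]
    rw [this]
    exact cb.sqrt
  have iab : Integrable (fun V => a1 V * b1 V) (PP m μ) := by
    refine Integrable.mono' (ia.add ib) (ca'.mul cb').aestronglyMeasurable
      (Filter.Eventually.of_forall fun V => ?_)
    rw [Real.norm_of_nonneg (mul_nonneg (a0 V) (b0 V))]
    simp only [Pi.add_apply]
    nlinarith [sq_nonneg (a1 V - b1 V), sq_nonneg (a1 V), sq_nonneg (b1 V)]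
  have h1 : ‖∫ V, star f ⬝ᵥ ((Psi A (R V - M) * (R V - M)) *ᵥ g) ∂(PP m μ)‖ ≤
      ∫ V, a1 V * b1 V ∂(PP m μ) := by
    refine norm_integral_le_of_norm_le iab (Filter.Eventually.of_forall fun V => ?_)
    rw [← Matrix.mulVec_mulVec, adjoint, ha1, hb1]
    exact cs_norm _ _
  -- first factor
  have h2 : ∫ V, a1 V ^ 2 ∂(PP m μ) ≤ 4 * β ^ 2 * Q / η ^ 6 * (Q * v2) := by
    simp only [sa]
    rw [integral_finsetSum _ fun i _ => (sqint _ (bt i)).1]
    have e1 : ∀ i, ∫ V, ‖((R V - M) * ZZ A f i).trace‖ ^ 2 ∂(PP m μ) ≤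
        4 * β ^ 2 * Q / η ^ 6 * hs (ZZ A f i) := by
      intro i
      have e2 := h n m X0 A a v2 Q hadm μ β η hβ hμ hη hη1 hv (ZZ A f i)
      have e3 : (M * ZZ A f i).trace = ∫ U, (R U * ZZ A f i).trace ∂(PP m μ) := by
        have := int_lin μ bR (l5 (ZZ A f i))
        rw [← hM'] at this
        exact this.symm
      rw [← hR, ← e3] at e2
      have e4 : ∀ V, ((R V - M) * ZZ A f i).trace =
          (R V * ZZ A f i).trace - (M * ZZ A f i).trace := fun V => by
        rw [sub_mul, Matrix.trace_sub]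
      simp only [e4]
      exact e2
    refine (Finset.sum_le_sum fun i _ => e1 i).trans ?_
    rw [← Finset.mul_sum]
    have hQ0 := hadm.hQ0
    exact mul_le_mul_of_nonneg_left (sum_ZZ hadm f hf) (by positivity)
  -- second factor
  have h3 : ∫ V, b1 V ^ 2 ∂(PP m μ) ≤ (η ^ 2)⁻¹ := by
    simp only [sb]
    rw [integral_finsetSum _ fun i _ => (sqint _ (bv i)).1]
    have bw : ∀ i, BC fun V => (R V *ᵥ g) i := fun i => bR.vec g i
    have e1 : ∀ i, ∫ V, ‖((R V - M) *ᵥ g) i‖ ^ 2 ∂(PP m μ) ≤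
        ∫ V, ‖(R V *ᵥ g) i‖ ^ 2 ∂(PP m μ) := by
      intro i
      have e2 := var_le μ (bw i)
      have e3 : (M *ᵥ g) i = ∫ U, (R U *ᵥ g) i ∂(PP m μ) := by
        have := int_lin μ bR (l4 g i)
        rw [← hM'] at this
        exact this.symm
      rw [← e3] at e2
      have e4 : ∀ V, ((R V - M) *ᵥ g) i = (R V *ᵥ g) i - (M *ᵥ g) i := fun V => by
        rw [Matrix.sub_mulVec, Pi.sub_apply]
      simp only [e4]
      exact e2
    refine (Finset.sum_le_sum fun i _ => e1 i).trans ?_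
    rw [← integral_finsetSum _ fun i _ => (sqint _ (bw i)).1]
    have e5 : ∫ V, ∑ i, ‖(R V *ᵥ g) i‖ ^ 2 ∂(PP m μ) ≤ ∫ _, (η ^ 2)⁻¹ ∂(PP m μ) := by
      refine integral_mono_ae (integrable_finsetSum _ fun i _ => (sqint _ (bw i)).1)
        (integrable_const _) (Filter.Eventually.of_forall fun V => ?_)
      have := RR_bd hadm.hX0 hadm.hA hη V g
      rw [hg, mul_one, ← hR] at this
      exact this
    rwa [integral_const, smul_eq_mul, probReal_univ, one_mul] at e5
  have h4 := cs_int μ ia ib iab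
  have hQ0 := hadm.hQ0
  have hv0 := hadm.hv0
  have h5 : (∫ V, a1 V * b1 V ∂(PP m μ)) ^ 2 ≤ (2 * β * Q * Real.sqrt v2 / η ^ 4) ^ 2 := by
    refine h4.trans ?_
    have e1 : (2 * β * Q * Real.sqrt v2 / η ^ 4) ^ 2 =
        (4 * β ^ 2 * Q / η ^ 6 * (Q * v2)) * (η ^ 2)⁻¹ := by
      rw [div_pow, mul_pow, mul_pow, mul_pow, Real.sq_sqrt hv0]
      field_simp
      ring
    rw [e1]
    exact mul_le_mul h2 h3 (integral_nonneg fun V => sq_nonneg _) (by positivity)
  exact h1.trans (le_of_sq_le_sq h5 (by positivity))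

end Pool.Agent.W240.BK
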