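import Pool.Agent.W788.BK.Stm

/-! Two energy shells, Fejer kernels. -/

set_option autoImplicit false
set_option linter.unusedSectionVars false

open scoped BigOperators

namespace Pool.Agent.W240.BK

open Pool.Agent.W788.BK
open Pool.Agent.W788.MFP.Four (T NN adj)

section sums

/-- sums over injective images -/
theorem sum_inj (S : Finset ℕ) (g : ℕ → ℕ) (hg : Set.InjOn g S) (F : ℕ → ℝ)
    (hF : ∀ i, 0 ≤ F i) (K : ℕ) (hK : ∀ l ∈ S, g l < K) :
    ∑ l ∈ S, F (g l) ≤ ∑ i ∈ Finset.range K, F i := by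
  rw [← Finset.sum_image (f := F) hg]
  refine Finset.sum_le_sum_of_subset_of_nonneg ?_ fun i _ _ => hF i
  intro i hi
  rw [Finset.mem_image] at hi
  obtain ⟨l, hl, rfl⟩ := hi
  exact Finset.mem_range.2 (hK l hl)

theorem sum_inj' (S : Finset ℕ) (g : ℕ → ℕ) (hg : Set.InjOn g S) (F : ℕ → ℝ)
    (hF : ∀ i, 0 ≤ F i) (hF' : Antitone F) (K : ℕ) :
    ∑ l ∈ S, F (g l) ≤ ∑ i ∈ Finset.range K, F i + S.card * F K := by
  rw [← Finset.sum_filter_add_sum_filter_not S (fun l => g l < K)]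
  refine add_le_add ?_ ?_
  · refine sum_inj _ g (hg.mono ?_) F hF K fun l hl => (Finset.mem_filter.1 hl).2
    intro x hx
    exact Finset.mem_of_mem_filter _ hx
  · have h1 : ∑ l ∈ S with ¬g l < K, F (g l) ≤ ∑ l ∈ S with ¬g l < K, F K := by
      refine Finset.sum_le_sum fun l hl => hF' ?_
      have := (Finset.mem_filter.1 hl).2
      omega
    refine h1.trans ?_
    rw [Finset.sum_const, nsmul_eq_mul]
    exact mul_le_mul_of_nonneg_right (by exact_mod_cast Finset.card_filter_le _ _) (hF K)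

/-- `∑ (1 + 2 θ i)^(-1/2)` -/
theorem sum_sqrt (θ : ℝ) (h0 : 0 < θ) (h1 : θ ≤ 1) (K : ℕ) :
    ∑ i ∈ Finset.range K, 1 / Real.sqrt (1 + 2 * θ * i) ≤ Real.sqrt (2 * K / θ) := by
  induction K with
  | zero => simp
  | succ K ih =>
    rw [Finset.sum_range_succ]
    obtain ⟨a, ha⟩ : ∃ a, a = Real.sqrt (2 * K / θ) := ⟨_, rfl⟩
    obtain ⟨b, hb⟩ : ∃ b, b = Real.sqrt (2 * ((K + 1 : ℕ) : ℝ) / θ) := ⟨_, rfl⟩
    obtain ⟨c, hc⟩ : ∃ c, c = Real.sqrt (1 + 2 * θ * K) := ⟨_, rfl⟩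
    rw [← ha] at ih
    rw [← hb, ← hc]
    have hK : (0 : ℝ) ≤ K := Nat.cast_nonneg K
    have ha2 : a ^ 2 = 2 * K / θ := by rw [ha, Real.sq_sqrt (by positivity)]
    have hb2 : b ^ 2 = 2 * (K + 1) / θ := by
      rw [hb, Real.sq_sqrt (by positivity)]
      push_cast
      ring
    have hc2 : c ^ 2 = 1 + 2 * θ * K := by rw [hc, Real.sq_sqrt (by positivity)]
    have ha0 : 0 ≤ a := by rw [ha]; exact Real.sqrt_nonneg _
    have hb0 : 0 < b := by rw [hb]; exact Real.sqrt_pos.2 (by positivity)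
    have hc0 : 0 < c := by rw [hc]; exact Real.sqrt_pos.2 (by positivity)
    -- (b - a) (b + a) = 2 / θ and θ (a + b) ≤ 2 c
    have e1 : (b - a) * (b + a) = 2 / θ := by
      have : (b - a) * (b + a) = b ^ 2 - a ^ 2 := by ring
      rw [this, ha2, hb2]
      field_simp
      ring
    have e2 : (θ * (a + b)) ^ 2 ≤ (2 * c) ^ 2 := by
      have e3 : θ ^ 2 * a ^ 2 = 2 * K * θ := by
        rw [ha2]
        field_simp
      have e4 : θ ^ 2 * b ^ 2 = 2 * (K + 1) * θ := by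
        rw [hb2]
        field_simp
      have e5 : (θ * (a + b)) ^ 2 ≤ 2 * (θ ^ 2 * a ^ 2) + 2 * (θ ^ 2 * b ^ 2) := by
        nlinarith [sq_nonneg (θ * (a - b))]
      have e6 : (2 * c) ^ 2 = 4 * (1 + 2 * θ * K) := by
        rw [← hc2]
        ring
      rw [e6]
      rw [e3, e4] at e5
      nlinarith
    have e7 : θ * (a + b) ≤ 2 * c := le_of_sq_le_sq e2 (by positivity)
    have e8 : 1 / c ≤ b - a := by
      rw [div_le_iff₀ hc0]
      have e9 : 0 < b + a := by positivity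
      have e10 : b - a = 2 / θ / (b + a) := by
        rw [← e1]
        field_simp
      rw [e10, div_div, div_mul_eq_mul_div, le_div_iff₀ (by positivity)]
      linarith
    linarith

/-- the sum over points at distance two -/
theorem sum_two (θ : ℝ) (h0 : 0 < θ) (h1 : θ ≤ 1) (M : ℕ) (hM : 1 ≤ M) (a : ℤ) :
    ∑ l ∈ Finset.range M, 1 / Real.sqrt (1 + θ * |((a - 2 * l : ℤ) : ℝ)|) ≤
      4 * M / Real.sqrt (θ * M) := by
  have hMr : (1 : ℝ) ≤ M := by exact_mod_cast hM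
  obtain ⟨F, hF⟩ : ∃ F : ℕ → ℝ, F = fun i : ℕ => 1 / Real.sqrt (1 + 2 * θ * (i : ℝ)) := ⟨_, rfl⟩
  have F0 : ∀ i, 0 ≤ F i := fun i => by rw [hF]; positivity
  have Fa : Antitone F := by
    intro i j hij
    rw [hF]
    have : (i : ℝ) ≤ j := by exact_mod_cast hij
    simp only
    gcongr
  have hle : ∀ l : ℕ, 1 / Real.sqrt (1 + θ * |((a - 2 * l : ℤ) : ℝ)|) ≤
      F ((a - 2 * l).natAbs / 2) := by
    intro l
    rw [hF]
    simp only
    have e1 : 2 * (((a - 2 * l).natAbs / 2 : ℕ) : ℝ) ≤ |((a - 2 * l : ℤ) : ℝ)| := by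
      have e2 : |((a - 2 * l : ℤ) : ℝ)| = (((a - 2 * l).natAbs : ℕ) : ℝ) := by
        rw [Nat.cast_natAbs]
        push_cast
        rfl
      rw [e2]
      have : 2 * ((a - 2 * l).natAbs / 2) ≤ (a - 2 * l).natAbs := by omega
      exact_mod_cast this
    refine one_div_le_one_div_of_le (Real.sqrt_pos.2 (by positivity)) (Real.sqrt_le_sqrt ?_)
    have := mul_le_mul_of_nonneg_left e1 h0.le
    linarith
  have h2 : ∑ l ∈ Finset.range M, 1 / Real.sqrt (1 + θ * |((a - 2 * l : ℤ) : ℝ)|) ≤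
      2 * ∑ i ∈ Finset.range M, F i + M * F M := by
    refine (Finset.sum_le_sum fun l _ => hle l).trans ?_
    rw [← Finset.sum_filter_add_sum_filter_not (Finset.range M) (fun l : ℕ => 2 * (l : ℤ) ≤ a)]
    have e1 := sum_inj' ((Finset.range M).filter (fun l : ℕ => 2 * (l : ℤ) ≤ a))
      (fun l => (a - 2 * l).natAbs / 2) (by
        intro x hx y hy hxy
        have hx' := (Finset.mem_filter.1 (Finset.mem_coe.1 hx)).2
        have hy' := (Finset.mem_filter.1 (Finset.mem_coe.1 hy)).2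
        simp only at hxy
        omega) F F0 Fa M
    have e2 := sum_inj' ((Finset.range M).filter (fun l : ℕ => ¬ 2 * (l : ℤ) ≤ a))
      (fun l => (a - 2 * l).natAbs / 2) (by
        intro x hx y hy hxy
        have hx' := (Finset.mem_filter.1 (Finset.mem_coe.1 hx)).2
        have hy' := (Finset.mem_filter.1 (Finset.mem_coe.1 hy)).2
        simp only at hxy
        omega) F F0 Fa M
    have e3 : (((Finset.range M).filter (fun l : ℕ => 2 * (l : ℤ) ≤ a)).card : ℝ) +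
        (((Finset.range M).filter (fun l : ℕ => ¬ 2 * (l : ℤ) ≤ a)).card : ℝ) = M := by
      have := Finset.card_filter_add_card_filter_not (s := Finset.range M)
        (fun l : ℕ => 2 * (l : ℤ) ≤ a)
      rw [Finset.card_range] at this
      exact_mod_cast this
    have e4 : M * F M = (((Finset.range M).filter (fun l : ℕ => 2 * (l : ℤ) ≤ a)).card : ℝ) * F M +
        (((Finset.range M).filter (fun l : ℕ => ¬ 2 * (l : ℤ) ≤ a)).card : ℝ) * F M := by
      rw [← add_mul, e3]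
    linarith
  obtain ⟨r, hr⟩ : ∃ r, r = Real.sqrt (θ * M) := ⟨_, rfl⟩
  have hr0 : 0 < r := by rw [hr]; exact Real.sqrt_pos.2 (by positivity)
  have hr2 : r ^ 2 = θ * M := by rw [hr, Real.sq_sqrt (by positivity)]
  have h3 : ∑ i ∈ Finset.range M, F i ≤ 3 / 2 * (M / r) := by
    have e1 := sum_sqrt θ h0 h1 M
    rw [hF]
    refine e1.trans ?_
    rw [Real.sqrt_le_left (by positivity)]
    have : (3 / 2 * ((M : ℝ) / r)) ^ 2 = 9 / 4 * M / θ := by
      rw [mul_pow, div_pow (M : ℝ) r, hr2]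
      field_simp
      ring
    rw [this]
    refine div_le_div_of_nonneg_right ?_ h0.le
    linarith
  have h4 : M * F M ≤ M / r := by
    rw [hF, hr]
    simp only
    rw [mul_one_div]
    refine div_le_div_of_nonneg_left (by positivity) (Real.sqrt_pos.2 (by positivity))
      (Real.sqrt_le_sqrt ?_)
    have : 0 ≤ θ * M := by positivity
    linarith
  rw [← hr]
  have e5 : 4 * (M : ℝ) / r = 4 * (M / r) := by ring
  rw [e5]
  linarith

/-- the harmonic sum -/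
theorem sum_harm (M : ℕ) (hM : 1 ≤ M) :
    ∑ i ∈ Finset.range (2 * M), 1 / (1 + (i : ℝ)) ≤ 17 / 10 * (1 + Real.log M) := by
  have h1 := harmonic_le_one_add_log (2 * M)
  have h2 : ((harmonic (2 * M) : ℚ) : ℝ) = ∑ i ∈ Finset.range (2 * M), 1 / (1 + (i : ℝ)) := by
    unfold harmonic
    push_cast
    refine Finset.sum_congr rfl fun i _ => ?_
    rw [one_div, add_comm]
  rw [← h2]
  refine h1.trans ?_
  have hMr : (1 : ℝ) ≤ M := by exact_mod_cast hM
  push_cast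
  rw [Real.log_mul (by norm_num) (by positivity)]
  have := Real.log_two_lt_d9
  have := Real.log_nonneg hMr
  linarith

theorem sum_abs (M s : ℕ) (hM : 1 ≤ M) (hs : s < 2 * M) :
    ∑ p ∈ Finset.range (2 * M), 1 / (1 + |(p : ℝ) - s|) ≤ 17 / 5 * (1 + Real.log M) := by
  obtain ⟨F, hF⟩ : ∃ F : ℕ → ℝ, F = fun i : ℕ => 1 / (1 + (i : ℝ)) := ⟨_, rfl⟩
  have F0 : ∀ i, 0 ≤ F i := fun i => by rw [hF]; positivity
  have hle : ∀ p : ℕ, 1 / (1 + |(p : ℝ) - s|) = F ((p : ℤ) - s).natAbs := by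
    intro p
    rw [hF]
    simp only
    congr 2
    rw [Nat.cast_natAbs]
    push_cast
    rfl
  rw [Finset.sum_congr rfl fun p _ => hle p]
  rw [← Finset.sum_filter_add_sum_filter_not (Finset.range (2 * M)) (fun p : ℕ => p ≤ s)]
  have e1 := sum_inj ((Finset.range (2 * M)).filter (fun p : ℕ => p ≤ s))
      (fun p => ((p : ℤ) - s).natAbs) (by
        intro x hx y hy hxy
        have hx' := (Finset.mem_filter.1 (Finset.mem_coe.1 hx)).2
        have hy' := (Finset.mem_filter.1 (Finset.mem_coe.1 hy)).2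
        simp only at hxy
        omega) F F0 (2 * M) (by
        intro l hl
        have h1 := (Finset.mem_filter.1 hl).1
        rw [Finset.mem_range] at h1
        omega)
  have e2 := sum_inj ((Finset.range (2 * M)).filter (fun p : ℕ => ¬ p ≤ s))
      (fun p => ((p : ℤ) - s).natAbs) (by
        intro x hx y hy hxy
        have hx' := (Finset.mem_filter.1 (Finset.mem_coe.1 hx)).2
        have hy' := (Finset.mem_filter.1 (Finset.mem_coe.1 hy)).2
        simp only at hxy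
        omega) F F0 (2 * M) (by
        intro l hl
        have h1 := (Finset.mem_filter.1 hl).1
        rw [Finset.mem_range] at h1
        omega)
  have e3 := sum_harm M hM
  have e4 : ∑ i ∈ Finset.range (2 * M), F i = ∑ i ∈ Finset.range (2 * M), 1 / (1 + (i : ℝ)) := by
    rw [hF]
  rw [← e4] at e3
  linarith

/-- the weights -/
noncomputable def om (θ u v : ℝ) : ℝ := 1 / (1 + |u|) * (1 / Real.sqrt (1 + θ * |v|))

theorem om_nonneg (θ u v : ℝ) : 0 ≤ om θ u v := by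
  unfold om
  positivity

theorem sum_om (θ : ℝ) (h0 : 0 < θ) (h1 : θ ≤ 1) (M M' : ℕ) (hM' : 1 ≤ M') (hMM : M' ≤ M)
    (j' l' : ℕ) (hj' : j' < M) (hl' : l' < M') :
    ∑ j ∈ Finset.range M, ∑ l ∈ Finset.range M',
      om θ (((j : ℝ) - j') + ((l : ℝ) - l')) (((j : ℝ) - j') - ((l : ℝ) - l')) ≤
      17 / 5 * (1 + Real.log M) * (4 * M' / Real.sqrt (θ * M')) := by
  have hM : 1 ≤ M := hM'.trans hMM
  obtain ⟨G, hG⟩ : ∃ G : ℕ × ℕ → ℝ, G = fun x =>
    1 / (1 + |(x.1 : ℝ) - ((j' + l' : ℕ) : ℝ)|) *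
      (1 / Real.sqrt (1 + θ * |(((x.1 : ℤ) - j' + l' - 2 * x.2 : ℤ) : ℝ)|)) := ⟨_, rfl⟩
  have G0 : ∀ x, 0 ≤ G x := fun x => by rw [hG]; positivity
  have e1 : ∀ j l : ℕ, om θ (((j : ℝ) - j') + ((l : ℝ) - l')) (((j : ℝ) - j') - ((l : ℝ) - l')) =
      G (j + l, l) := by
    intro j l
    rw [hG]
    unfold om
    simp only
    have a1 : ((j : ℝ) - j') + ((l : ℝ) - l') = ((j + l : ℕ) : ℝ) - ((j' + l' : ℕ) : ℝ) := by
      push_cast
      ring
    have a2 : ((j : ℝ) - j') - ((l : ℝ) - l') =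
        ((((j + l : ℕ) : ℤ) - j' + l' - 2 * l : ℤ) : ℝ) := by
      push_cast
      ring
    rw [a1, a2]
  simp only [e1]
  rw [← Finset.sum_product']
  have e2 : ∑ x ∈ Finset.range M ×ˢ Finset.range M', G (x.1 + x.2, x.2) =
      ∑ y ∈ (Finset.range M ×ˢ Finset.range M').image (fun x => (x.1 + x.2, x.2)), G y := by
    rw [Finset.sum_image]
    intro x _ y _ hxy
    simp only [Prod.mk.injEq] at hxy
    ext
    · omega
    · exact hxy.2
  rw [e2]
  have e3 : (Finset.range M ×ˢ Finset.range M').image (fun x => (x.1 + x.2, x.2)) ⊆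
      Finset.range (2 * M) ×ˢ Finset.range M' := by
    intro y hy
    rw [Finset.mem_image] at hy
    obtain ⟨x, hx, rfl⟩ := hy
    rw [Finset.mem_product, Finset.mem_range, Finset.mem_range] at hx ⊢
    constructor
    · simp only
      omega
    · exact hx.2
  refine (Finset.sum_le_sum_of_subset_of_nonneg e3 fun y _ _ => G0 y).trans ?_
  rw [Finset.sum_product]
  have e4 : ∀ p ∈ Finset.range (2 * M), ∑ l ∈ Finset.range M', G (p, l) ≤
      1 / (1 + |(p : ℝ) - ((j' + l' : ℕ) : ℝ)|) * (4 * M' / Real.sqrt (θ * M')) := by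
    intro p _
    rw [hG]
    simp only
    rw [← Finset.mul_sum]
    exact mul_le_mul_of_nonneg_left (sum_two θ h0 h1 M' hM' _) (by positivity)
  refine (Finset.sum_le_sum e4).trans ?_
  rw [← Finset.sum_mul]
  exact mul_le_mul_of_nonneg_right (sum_abs M (j' + l') hM (by omega)) (by positivity)

theorem sum_om_all (θ : ℝ) (h0 : 0 < θ) (h1 : θ ≤ 1) (M M' : ℕ) (hM' : 1 ≤ M') (hMM : M' ≤ M) :
    ∑ j ∈ Finset.range M, ∑ j' ∈ Finset.range M, ∑ l ∈ Finset.range M',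
      ∑ l' ∈ Finset.range M',
      om θ (((j : ℝ) - j') + ((l : ℝ) - l')) (((j : ℝ) - j') - ((l : ℝ) - l')) ≤
      M * M' * (17 / 5 * (1 + Real.log M) * (4 * M' / Real.sqrt (θ * M'))) := by
  rw [Finset.sum_comm]
  have e1 : ∀ j' ∈ Finset.range M, ∑ j ∈ Finset.range M, ∑ l ∈ Finset.range M',
      ∑ l' ∈ Finset.range M',
      om θ (((j : ℝ) - j') + ((l : ℝ) - l')) (((j : ℝ) - j') - ((l : ℝ) - l')) ≤
      M' * (17 / 5 * (1 + Real.log M) * (4 * M' / Real.sqrt (θ * M'))) := by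
    intro j' hj'
    have e2 : ∑ j ∈ Finset.range M, ∑ l ∈ Finset.range M',
      ∑ l' ∈ Finset.range M',
      om θ (((j : ℝ) - j') + ((l : ℝ) - l')) (((j : ℝ) - j') - ((l : ℝ) - l')) =
      ∑ l' ∈ Finset.range M', ∑ j ∈ Finset.range M, ∑ l ∈ Finset.range M',
      om θ (((j : ℝ) - j') + ((l : ℝ) - l')) (((j : ℝ) - j') - ((l : ℝ) - l')) := by
      have : ∀ j : ℕ, ∑ l ∈ Finset.range M', ∑ l' ∈ Finset.range M',
          om θ (((j : ℝ) - j') + ((l : ℝ) - l')) (((j : ℝ) - j') - ((l : ℝ) - l')) =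
          ∑ l' ∈ Finset.range M', ∑ l ∈ Finset.range M',
          om θ (((j : ℝ) - j') + ((l : ℝ) - l')) (((j : ℝ) - j') - ((l : ℝ) - l')) :=
        fun j => Finset.sum_comm
      rw [Finset.sum_congr rfl fun j _ => this j, Finset.sum_comm]
    rw [e2]
    refine (Finset.sum_le_sum fun l' hl' => sum_om θ h0 h1 M M' hM' hMM j' l'
      (Finset.mem_range.1 hj') (Finset.mem_range.1 hl')).trans ?_
    rw [Finset.sum_const, Finset.card_range, nsmul_eq_mul]
  refine (Finset.sum_le_sum e1).trans ?_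
  rw [Finset.sum_const, Finset.card_range, nsmul_eq_mul]
  exact le_of_eq (by ring)

end sums

section phase

variable {d L : ℕ} [NeZero L]

/-- the one-dimensional sum -/
noncomputable def S1 (L : ℕ) [NeZero L] (z : ℂ) : ℂ :=
  ∑ k : ZMod L, Complex.exp (Complex.I * ((2 * (z * ZMod.stdAddChar k).re : ℝ) : ℂ))

theorem S1_le (z : ℂ) : ‖S1 L z‖ ≤ L := by
  unfold S1
  refine (norm_sum_le _ _).trans ?_
  have h1 : ∀ k : ZMod L, ‖Complex.exp
      (Complex.I * ((2 * (z * ZMod.stdAddChar k).re : ℝ) : ℂ))‖ = 1 := by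
    intro k
    rw [mul_comm, Complex.norm_exp_ofReal_mul_I]
  rw [Finset.sum_congr rfl fun k _ => h1 k, Finset.sum_const, Finset.card_univ, ZMod.card,
    nsmul_eq_mul, mul_one]

/-- the phase sum -/
noncomputable def Ph (Q : T d L) (ξ ζ : ℝ) : ℂ :=
  ∑ k : T d L, Complex.exp (Complex.I * ((ξ * adj k + ζ * adj (k + Q) : ℝ) : ℂ))

theorem Ph_prod (Q : T d L) (ξ ζ : ℝ) :
    Ph Q ξ ζ = ∏ i, S1 L ((ξ : ℂ) + ζ * ZMod.stdAddChar (Q i)) := by
  unfold Ph S1
  rw [Finset.prod_univ_sum, Fintype.piFinset_univ]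
  refine Finset.sum_congr rfl fun k _ => ?_
  rw [← Complex.exp_sum, ← Finset.mul_sum]
  congr 2
  rw [← Complex.ofReal_sum]
  congr 1
  unfold adj
  rw [Finset.mul_sum, Finset.mul_sum, ← Finset.sum_add_distrib]
  refine Finset.sum_congr rfl fun i _ => ?_
  rw [Pi.add_apply, AddChar.map_add_eq_mul]
  simp only [Complex.mul_re, Complex.add_re, Complex.add_im, Complex.mul_im, Complex.ofReal_re,
    Complex.ofReal_im]
  ring

theorem chi_norm (q : ZMod L) : (ZMod.stdAddChar q : ℂ).re ^ 2 + (ZMod.stdAddChar q : ℂ).im ^ 2 =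
    1 := by
  have h1 : ‖(ZMod.stdAddChar q : ℂ)‖ = 1 := by
    rw [ZMod.stdAddChar_apply]
    exact Circle.norm_coe _
  have h2 := Complex.normSq_eq_norm_sq (ZMod.stdAddChar q : ℂ)
  rw [h1, Complex.normSq_apply] at h2
  linarith

theorem rho_sq (q : ZMod L) (ξ ζ : ℝ) : ‖(ξ : ℂ) + ζ * ZMod.stdAddChar q‖ ^ 2 =
    (ξ + ζ) ^ 2 * ((1 + cr q) / 2) + (ξ - ζ) ^ 2 * ((1 - cr q) / 2) := by
  have h1 := chi_norm q
  rw [← Complex.normSq_eq_norm_sq, Complex.normSq_apply]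
  simp only [Complex.mul_re, Complex.add_re, Complex.add_im, Complex.mul_im, Complex.ofReal_re,
    Complex.ofReal_im]
  unfold cr
  linear_combination ζ ^ 2 * h1

theorem cr_le (q : ZMod L) : |cr q| ≤ 1 := by
  have h1 := chi_norm q
  unfold cr
  rw [← sq_le_one_iff_abs_le_one]
  nlinarith [sq_nonneg (ZMod.stdAddChar q : ℂ).im]

/-- the decay of one factor -/
theorem S1_dec (h : S_OSC) (M : ℕ) (hL : (1 + 2 * (M : ℝ)) ^ 3 ≤ (L : ℝ) ^ 2) (z : ℂ)
    (hz : ‖z‖ ≤ 2 * M) (x : ℝ) (hx : 0 ≤ x) (hxz : x ^ 2 / 2 ≤ ‖z‖ ^ 2) :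
    ‖S1 L z‖ ≤ 12 * L * (1 / Real.sqrt (1 + x)) := by
  have h1 := h L z ((pow_le_pow_left₀ (by positivity) (by linarith) 3).trans hL)
  refine (show ‖S1 L z‖ ≤ _ from h1).trans ?_
  have h2 : 7 / 10 * x ≤ ‖z‖ := by
    refine le_of_sq_le_sq ?_ (norm_nonneg z)
    nlinarith [sq_nonneg x]
  have h3 : 10 * Real.sqrt (1 + x) ≤ 12 * Real.sqrt (1 + ‖z‖) := by
    have hzn := norm_nonneg z
    refine le_of_sq_le_sq ?_ (by positivity)
    rw [mul_pow, mul_pow, Real.sq_sqrt (by positivity), Real.sq_sqrt (by positivity)]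
    linarith
  have hzn := norm_nonneg z
  have p1 : 0 < Real.sqrt (1 + x) := Real.sqrt_pos.2 (by positivity)
  have p2 : 0 < Real.sqrt (1 + ‖z‖) := Real.sqrt_pos.2 (by positivity)
  rw [mul_one_div, div_le_div_iff₀ p2 p1]
  have hLn : (0 : ℝ) ≤ L := Nat.cast_nonneg L
  nlinarith

/-- three coordinates -/
theorem Ph_three (Q : T d L) (ξ ζ A B C : ℝ) (a b c : Fin d) (hab : a ≠ b)
    (hac : a ≠ c) (hbc : b ≠ c)
    (ha : ‖S1 L ((ξ : ℂ) + ζ * ZMod.stdAddChar (Q a))‖ ≤ 12 * L * A)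
    (hb : ‖S1 L ((ξ : ℂ) + ζ * ZMod.stdAddChar (Q b))‖ ≤ 12 * L * B)
    (hc : ‖S1 L ((ξ : ℂ) + ζ * ZMod.stdAddChar (Q c))‖ ≤ 12 * L * C) :
    ‖Ph Q ξ ζ‖ ≤ 1728 * (A * B * C) * NN d L := by
  rw [Ph_prod, norm_prod]
  obtain ⟨f, hf⟩ : ∃ f : Fin d → ℝ, f = fun i =>
    ‖S1 L ((ξ : ℂ) + ζ * ZMod.stdAddChar (Q i))‖ := ⟨_, rfl⟩
  have f0 : ∀ i, 0 ≤ f i := fun i => by rw [hf]; exact norm_nonneg _
  have f1 : ∀ i, f i ≤ L := fun i => by rw [hf]; exact S1_le _
  have ha' : f a ≤ 12 * L * A := by rw [hf]; exact ha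
  have hb' : f b ≤ 12 * L * B := by rw [hf]; exact hb
  have hc' : f c ≤ 12 * L * C := by rw [hf]; exact hc
  have e1 : ∏ i, f i = f a * (f b * (f c *
      ∏ i ∈ ((Finset.univ.erase a).erase b).erase c, f i)) := by
    rw [Finset.mul_prod_erase, Finset.mul_prod_erase, Finset.mul_prod_erase]
    · exact Finset.mem_univ _
    · exact Finset.mem_erase.2 ⟨hab.symm, Finset.mem_univ _⟩
    · exact Finset.mem_erase.2 ⟨hbc.symm, Finset.mem_erase.2 ⟨hac.symm, Finset.mem_univ _⟩⟩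
  have hcard : (((Finset.univ.erase a).erase b).erase c).card + 3 = d := by
    rw [Finset.card_erase_of_mem, Finset.card_erase_of_mem, Finset.card_erase_of_mem,
      Finset.card_univ, Fintype.card_fin]
    · have : ({a, b, c} : Finset (Fin d)).card ≤ Fintype.card (Fin d) := Finset.card_le_univ _
      rw [Fintype.card_fin, Finset.card_insert_of_notMem, Finset.card_insert_of_notMem,
        Finset.card_singleton] at this
      · omega
      · simpa using hbc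
      · simp [hab, hac]
    · exact Finset.mem_univ _
    · exact Finset.mem_erase.2 ⟨hab.symm, Finset.mem_univ _⟩
    · exact Finset.mem_erase.2 ⟨hbc.symm, Finset.mem_erase.2 ⟨hac.symm, Finset.mem_univ _⟩⟩
  have e2 : ∏ i ∈ ((Finset.univ.erase a).erase b).erase c, f i ≤
      (L : ℝ) ^ (((Finset.univ.erase a).erase b).erase c).card := by
    rw [← Finset.prod_const]
    exact Finset.prod_le_prod (fun i _ => f0 i) fun i _ => f1 i
  have e0 : 0 ≤ ∏ i ∈ ((Finset.univ.erase a).erase b).erase c, f i :=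
    Finset.prod_nonneg fun i _ => f0 i
  have hL0 : (0 : ℝ) ≤ L := Nat.cast_nonneg L
  have g1 : 0 ≤ 12 * L * A := (f0 a).trans ha'
  have g2 : 0 ≤ 12 * L * B := (f0 b).trans hb'
  have g3 : 0 ≤ 12 * L * C := (f0 c).trans hc'
  have e3 : ∏ i, f i ≤ (12 * L * A) * ((12 * L * B) * ((12 * L * C) *
      (L : ℝ) ^ (((Finset.univ.erase a).erase b).erase c).card)) := by
    rw [e1]
    refine mul_le_mul ha' ?_ (mul_nonneg (f0 b) (mul_nonneg (f0 c) e0)) g1
    refine mul_le_mul hb' ?_ (mul_nonneg (f0 c) e0) g2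
    exact mul_le_mul hc' e2 e0 g3
  have e4 : (NN d L : ℝ) = (L : ℝ) ^ (((Finset.univ.erase a).erase b).erase c).card *
      (L : ℝ) ^ 3 := by
    unfold NN
    rw [← pow_add, hcard]
  have e5 : ∏ i, ‖S1 L ((ξ : ℂ) + ζ * ZMod.stdAddChar (Q i))‖ = ∏ i, f i := by rw [hf]
  rw [e5, e4]
  refine e3.trans (le_of_eq ?_)
  ring

/-- the choice of three coordinates -/
theorem three (hd : 3 ≤ d) (θ : ℝ) (hθ : 0 < θ) (hθ1 : θ ≤ 1) (Q : T d L) (hQ : ¬ Low θ Q) :
    (∃ a b c : Fin d, a ≠ b ∧ a ≠ c ∧ b ≠ c ∧ 1 / 2 ≤ (1 + cr (Q a)) / 2 ∧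
      1 / 2 ≤ (1 + cr (Q b)) / 2 ∧ θ ^ 2 / 2 ≤ (1 - cr (Q c)) / 2) ∨
    (∃ a b c : Fin d, a ≠ b ∧ a ≠ c ∧ b ≠ c ∧ 1 / 2 ≤ (1 - cr (Q a)) / 2 ∧
      1 / 2 ≤ (1 - cr (Q b)) / 2 ∧ θ ^ 2 / 2 ≤ (1 + cr (Q c)) / 2) := by
  unfold Low at hQ
  push Not at hQ
  obtain ⟨⟨i0, hi0⟩, ⟨j0, hj0⟩⟩ := hQ
  have hth : θ ^ 2 ≤ 1 := pow_le_one₀ hθ.le hθ1
  have hth0 : 0 ≤ θ ^ 2 := sq_nonneg _
  have other : ∀ i : Fin d, ∃ a b : Fin d, a ≠ b ∧ a ≠ i ∧ b ≠ i := by
    intro i
    have h1 : 1 < ((Finset.univ : Finset (Fin d)).erase i).card := by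
      rw [Finset.card_erase_of_mem (Finset.mem_univ _), Finset.card_univ, Fintype.card_fin]
      omega
    obtain ⟨a, ha, b, hb, hab⟩ := Finset.one_lt_card.1 h1
    exact ⟨a, b, hab, Finset.ne_of_mem_erase ha, Finset.ne_of_mem_erase hb⟩
  have hsum : ((Finset.univ : Finset (Fin d)).filter fun i => 0 ≤ cr (Q i)).card +
      ((Finset.univ : Finset (Fin d)).filter fun i => ¬ 0 ≤ cr (Q i)).card = d := by
    rw [Finset.card_filter_add_card_filter_not, Finset.card_univ, Fintype.card_fin]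
  by_cases hP : 1 < ((Finset.univ : Finset (Fin d)).filter fun i => 0 ≤ cr (Q i)).card
  · left
    by_cases hN : ∃ c, ¬ 0 ≤ cr (Q c)
    · obtain ⟨c, hc⟩ := hN
      obtain ⟨a, ha, b, hb, hab⟩ := Finset.one_lt_card.1 hP
      have ha' := (Finset.mem_filter.1 ha).2
      have hb' := (Finset.mem_filter.1 hb).2
      push Not at hc
      refine ⟨a, b, c, hab, ?_, ?_, by linarith, by linarith, by linarith⟩
      · rintro rfl
        linarith
      · rintro rfl
        linarith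
    · push Not at hN
      obtain ⟨a, b, hab, hai, hbi⟩ := other i0
      exact ⟨a, b, i0, hab, hai, hbi, by linarith [hN a], by linarith [hN b], by linarith⟩
  · right
    have hP' : 1 < ((Finset.univ : Finset (Fin d)).filter fun i => ¬ 0 ≤ cr (Q i)).card := by
      omega
    by_cases hN : ∃ c, 0 ≤ cr (Q c)
    · obtain ⟨c, hc⟩ := hN
      obtain ⟨a, ha, b, hb, hab⟩ := Finset.one_lt_card.1 hP'
      have ha' := (Finset.mem_filter.1 ha).2
      have hb' := (Finset.mem_filter.1 hb).2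
      push Not at ha' hb'
      refine ⟨a, b, c, hab, ?_, ?_, by linarith, by linarith, by linarith⟩
      · rintro rfl
        linarith
      · rintro rfl
        linarith
    · push Not at hN
      obtain ⟨a, b, hab, hai, hbi⟩ := other j0
      exact ⟨a, b, j0, hab, hai, hbi, by linarith [hN a], by linarith [hN b], by linarith⟩

/-- the bound for the phase sum -/
theorem Ph_bd (h : S_OSC) (hd : 3 ≤ d) (θ : ℝ) (hθ : 0 < θ) (hθ1 : θ ≤ 1) (Q : T d L)
    (hQ : ¬ Low θ Q) (M : ℕ) (hL : (1 + 2 * (M : ℝ)) ^ 3 ≤ (L : ℝ) ^ 2) :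
    (∀ ξ ζ : ℝ, |ξ| ≤ M → |ζ| ≤ M → ‖Ph Q ξ ζ‖ ≤ 1728 * om θ (ξ + ζ) (ξ - ζ) * NN d L) ∨
    (∀ ξ ζ : ℝ, |ξ| ≤ M → |ζ| ≤ M → ‖Ph Q ξ ζ‖ ≤ 1728 * om θ (ξ - ζ) (ξ + ζ) * NN d L) := by
  have hz : ∀ (ξ ζ : ℝ) (q : ZMod L), |ξ| ≤ M → |ζ| ≤ M →
      ‖(ξ : ℂ) + ζ * ZMod.stdAddChar q‖ ≤ 2 * M := by
    intro ξ ζ q h1 h2
    have e1 : ‖(ZMod.stdAddChar q : ℂ)‖ = 1 := by
      rw [ZMod.stdAddChar_apply]
      exact Circle.norm_coe _
    refine (norm_add_le _ _).trans ?_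
    rw [norm_mul, e1, mul_one, Complex.norm_real, Complex.norm_real, Real.norm_eq_abs,
      Real.norm_eq_abs]
    linarith
  have hom : ∀ u v : ℝ, 1 / Real.sqrt (1 + |u|) * (1 / Real.sqrt (1 + |u|)) *
      (1 / Real.sqrt (1 + θ * |v|)) = om θ u v := by
    intro u v
    unfold om
    congr 1
    rw [div_mul_div_comm, one_mul, Real.mul_self_sqrt (by positivity)]
  have hx : ∀ v : ℝ, (θ * |v|) ^ 2 = v ^ 2 * θ ^ 2 := fun v => by
    rw [mul_pow, sq_abs]
    ring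
  rcases three hd θ hθ hθ1 Q hQ with ⟨a, b, c, hab, hac, hbc, h1, h2, h3⟩ |
    ⟨a, b, c, hab, hac, hbc, h1, h2, h3⟩
  · left
    intro ξ ζ hξ hζ
    have t1 : ∀ i, 1 / 2 ≤ (1 + cr (Q i)) / 2 →
        ‖S1 L ((ξ : ℂ) + ζ * ZMod.stdAddChar (Q i))‖ ≤
        12 * L * (1 / Real.sqrt (1 + |ξ + ζ|)) := by
      intro i hi
      refine S1_dec h M hL _ (hz ξ ζ (Q i) hξ hζ) _ (abs_nonneg _) ?_
      rw [rho_sq, sq_abs]
      have := abs_le.1 (cr_le (Q i))
      have e1 : 0 ≤ (ξ - ζ) ^ 2 * ((1 - cr (Q i)) / 2) :=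
        mul_nonneg (sq_nonneg _) (by linarith)
      have e2 := mul_le_mul_of_nonneg_left hi (sq_nonneg (ξ + ζ))
      linarith
    have t2 : ‖S1 L ((ξ : ℂ) + ζ * ZMod.stdAddChar (Q c))‖ ≤
        12 * L * (1 / Real.sqrt (1 + θ * |ξ - ζ|)) := by
      refine S1_dec h M hL _ (hz ξ ζ (Q c) hξ hζ) _ (by positivity) ?_
      rw [rho_sq, hx]
      have := abs_le.1 (cr_le (Q c))
      have e1 : 0 ≤ (ξ + ζ) ^ 2 * ((1 + cr (Q c)) / 2) :=
        mul_nonneg (sq_nonneg _) (by linarith)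
      have e2 := mul_le_mul_of_nonneg_left h3 (sq_nonneg (ξ - ζ))
      linarith
    have := Ph_three Q ξ ζ _ _ _ a b c hab hac hbc (t1 a h1) (t1 b h2) t2
    rwa [hom] at this
  · right
    intro ξ ζ hξ hζ
    have t1 : ∀ i, 1 / 2 ≤ (1 - cr (Q i)) / 2 →
        ‖S1 L ((ξ : ℂ) + ζ * ZMod.stdAddChar (Q i))‖ ≤
        12 * L * (1 / Real.sqrt (1 + |ξ - ζ|)) := by
      intro i hi
      refine S1_dec h M hL _ (hz ξ ζ (Q i) hξ hζ) _ (abs_nonneg _) ?_
      rw [rho_sq, sq_abs]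
      have := abs_le.1 (cr_le (Q i))
      have e1 : 0 ≤ (ξ + ζ) ^ 2 * ((1 + cr (Q i)) / 2) :=
        mul_nonneg (sq_nonneg _) (by linarith)
      have e2 := mul_le_mul_of_nonneg_left hi (sq_nonneg (ξ - ζ))
      linarith
    have t2 : ‖S1 L ((ξ : ℂ) + ζ * ZMod.stdAddChar (Q c))‖ ≤
        12 * L * (1 / Real.sqrt (1 + θ * |ξ + ζ|)) := by
      refine S1_dec h M hL _ (hz ξ ζ (Q c) hξ hζ) _ (by positivity) ?_
      rw [rho_sq, hx]
      have := abs_le.1 (cr_le (Q c))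
      have e1 : 0 ≤ (ξ - ζ) ^ 2 * ((1 - cr (Q c)) / 2) :=
        mul_nonneg (sq_nonneg _) (by linarith)
      have e2 := mul_le_mul_of_nonneg_left h3 (sq_nonneg (ξ + ζ))
      linarith
    have := Ph_three Q ξ ζ _ _ _ a b c hab hac hbc (t1 a h1) (t1 b h2) t2
    rwa [hom] at this

/-- the Fejer kernel as an exponential sum -/
theorem Fe_eq (M : ℕ) (a : ℝ) : ((Fe M a : ℝ) : ℂ) = ((M : ℂ)⁻¹) ^ 2 *
    ∑ j ∈ Finset.range M, ∑ j' ∈ Finset.range M,
      Complex.exp (Complex.I * ((((j : ℝ) - j') * a : ℝ) : ℂ)) := by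
  unfold Fe
  rw [norm_mul, mul_pow, norm_inv, Complex.norm_natCast]
  push_cast
  congr 1
  rw [← Complex.ofReal_pow, ← Complex.normSq_eq_norm_sq, ← Complex.mul_conj, map_sum,
    Finset.sum_mul_sum]
  refine Finset.sum_congr rfl fun j _ => Finset.sum_congr rfl fun j' _ => ?_
  rw [← Complex.exp_conj, ← Complex.exp_add]
  congr 1
  simp only [map_mul, Complex.conj_I, Complex.conj_ofReal, map_natCast]
  ring

theorem expand (Q : T d L) (M M' : ℕ) (E E' : ℝ) :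
    ∑ k : T d L, Fe M (adj k - E) * Fe M' (adj (k + Q) - E') ≤
      ((M : ℝ)⁻¹) ^ 2 * ((M' : ℝ)⁻¹) ^ 2 * ∑ j ∈ Finset.range M, ∑ j' ∈ Finset.range M,
        ∑ l ∈ Finset.range M', ∑ l' ∈ Finset.range M', ‖Ph Q ((j : ℝ) - j') ((l : ℝ) - l')‖ := by
  have h0 : ∀ (M : ℕ) (a : ℝ), 0 ≤ Fe M a := fun M a => by unfold Fe; positivity
  have h1 : ∑ k : T d L, Fe M (adj k - E) * Fe M' (adj (k + Q) - E') =
      ‖((∑ k : T d L, Fe M (adj k - E) * Fe M' (adj (k + Q) - E') : ℝ) : ℂ)‖ := by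
    rw [Complex.norm_real, Real.norm_of_nonneg]
    exact Finset.sum_nonneg fun k _ => mul_nonneg (h0 _ _) (h0 _ _)
  have h2 : ((∑ k : T d L, Fe M (adj k - E) * Fe M' (adj (k + Q) - E') : ℝ) : ℂ) =
      ((M : ℂ)⁻¹) ^ 2 * ((M' : ℂ)⁻¹) ^ 2 * ∑ j ∈ Finset.range M, ∑ j' ∈ Finset.range M,
        ∑ l ∈ Finset.range M', ∑ l' ∈ Finset.range M',
        (Complex.exp (Complex.I * ((-(((j : ℝ) - j') * E) - ((l : ℝ) - l') * E' : ℝ) : ℂ)) *
          Ph Q ((j : ℝ) - j') ((l : ℝ) - l')) := by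
    push_cast
    have e1 : ∀ k : T d L, (Fe M (adj k - E) : ℂ) * (Fe M' (adj (k + Q) - E') : ℂ) =
        ((M : ℂ)⁻¹) ^ 2 * ((M' : ℂ)⁻¹) ^ 2 * ∑ j ∈ Finset.range M, ∑ j' ∈ Finset.range M,
        ∑ l ∈ Finset.range M', ∑ l' ∈ Finset.range M',
        (Complex.exp (Complex.I * ((((j : ℝ) - j') * (adj k - E) : ℝ) : ℂ)) *
          Complex.exp (Complex.I * ((((l : ℝ) - l') * (adj (k + Q) - E') : ℝ) : ℂ))) := by
      intro k
      rw [Fe_eq, Fe_eq, mul_mul_mul_comm]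
      congr 1
      rw [Finset.sum_mul]
      refine Finset.sum_congr rfl fun j _ => ?_
      rw [Finset.sum_mul]
      refine Finset.sum_congr rfl fun j' _ => ?_
      rw [Finset.mul_sum]
      refine Finset.sum_congr rfl fun l _ => ?_
      rw [Finset.mul_sum]
    rw [Finset.sum_congr rfl fun k _ => e1 k, ← Finset.mul_sum]
    congr 1
    rw [Finset.sum_comm]
    refine Finset.sum_congr rfl fun j _ => ?_
    rw [Finset.sum_comm]
    refine Finset.sum_congr rfl fun j' _ => ?_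
    rw [Finset.sum_comm]
    refine Finset.sum_congr rfl fun l _ => ?_
    rw [Finset.sum_comm]
    refine Finset.sum_congr rfl fun l' _ => ?_
    unfold Ph
    rw [Finset.mul_sum]
    refine Finset.sum_congr rfl fun k _ => ?_
    rw [← Complex.exp_add, ← Complex.exp_add]
    congr 1
    push_cast
    ring
  rw [h1, h2, norm_mul, norm_mul, norm_pow, norm_pow, norm_inv, norm_inv, Complex.norm_natCast,
    Complex.norm_natCast]
  refine mul_le_mul_of_nonneg_left ?_ (by positivity)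
  refine (norm_sum_le _ _).trans (Finset.sum_le_sum fun j _ => ?_)
  refine (norm_sum_le _ _).trans (Finset.sum_le_sum fun j' _ => ?_)
  refine (norm_sum_le _ _).trans (Finset.sum_le_sum fun l _ => ?_)
  refine (norm_sum_le _ _).trans (Finset.sum_le_sum fun l' _ => ?_)
  rw [norm_mul, mul_comm Complex.I, Complex.norm_exp_ofReal_mul_I, one_mul]

end phase

theorem two (h : S_OSC) : S_TWO := by
  intro d L _ hd θ hθ hθ1 Q hQ M M' hM' hMM hL E E'
  refine (expand Q M M' E E').trans ?_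
  have hM : 1 ≤ M := hM'.trans hMM
  have hMr : (1 : ℝ) ≤ M := by exact_mod_cast hM
  have hMr' : (1 : ℝ) ≤ M' := by exact_mod_cast hM'
  have hN : 0 < NN d L := Pool.Agent.W788.MFP.Four.NN_pos
  have hlog := Real.log_nonneg hMr
  have rng : ∀ (K : ℕ), K ≤ M → ∀ j ∈ Finset.range K, ∀ j' ∈ Finset.range K,
      |(j : ℝ) - j'| ≤ M := by
    intro K hK j hj j' hj'
    rw [Finset.mem_range] at hj hj'
    have a1 : (j : ℝ) ≤ M := by exact_mod_cast (by omega : j ≤ M)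
    have a2 : (j' : ℝ) ≤ M := by exact_mod_cast (by omega : j' ≤ M)
    have a3 : (0 : ℝ) ≤ j := Nat.cast_nonneg j
    have a4 : (0 : ℝ) ≤ j' := Nat.cast_nonneg j'
    rw [abs_le]
    constructor <;> linarith
  have key : ∑ j ∈ Finset.range M, ∑ j' ∈ Finset.range M,
        ∑ l ∈ Finset.range M', ∑ l' ∈ Finset.range M', ‖Ph Q ((j : ℝ) - j') ((l : ℝ) - l')‖ ≤
      1728 * (M * M' * (17 / 5 * (1 + Real.log M) * (4 * M' / Real.sqrt (θ * M')))) *
        NN d L := by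
    have fin : ∑ j ∈ Finset.range M, ∑ j' ∈ Finset.range M,
        ∑ l ∈ Finset.range M', ∑ l' ∈ Finset.range M',
        1728 * om θ (((j : ℝ) - j') + ((l : ℝ) - l')) (((j : ℝ) - j') - ((l : ℝ) - l')) *
          NN d L ≤
      1728 * (M * M' * (17 / 5 * (1 + Real.log M) * (4 * M' / Real.sqrt (θ * M')))) *
        NN d L := by
      simp only [← Finset.sum_mul, ← Finset.mul_sum]
      refine mul_le_mul_of_nonneg_right ?_ hN.le
      exact mul_le_mul_of_nonneg_left (sum_om_all θ hθ hθ1 M M' hM' hMM) (by norm_num)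
    rcases Ph_bd h hd θ hθ hθ1 Q hQ M hL with hp | hp
    · refine le_trans ?_ fin
      refine Finset.sum_le_sum fun j hj => Finset.sum_le_sum fun j' hj' =>
        Finset.sum_le_sum fun l hl => Finset.sum_le_sum fun l' hl' => ?_
      exact hp _ _ (rng M le_rfl j hj j' hj') (rng M' hMM l hl l' hl')
    · refine le_trans ?_ fin
      refine Finset.sum_le_sum fun j hj => Finset.sum_le_sum fun j' hj' => ?_
      rw [Finset.sum_comm]
      refine Finset.sum_le_sum fun l hl => Finset.sum_le_sum fun l' hl' => ?_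
      have := hp _ _ (rng M le_rfl j hj j' hj') (rng M' hMM l' hl' l hl)
      have e1 : ((j : ℝ) - j') - ((l' : ℝ) - l) = ((j : ℝ) - j') + ((l : ℝ) - l') := by ring
      have e2 : ((j : ℝ) - j') + ((l' : ℝ) - l) = ((j : ℝ) - j') - ((l : ℝ) - l') := by ring
      rwa [e1, e2] at this
  refine (mul_le_mul_of_nonneg_left key (by positivity)).trans ?_
  obtain ⟨r, hr⟩ : ∃ r, r = Real.sqrt (θ * M') := ⟨_, rfl⟩
  have hr0 : 0 < r := by rw [hr]; exact Real.sqrt_pos.2 (by positivity)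
  rw [← hr]
  have e1 : ((M : ℝ)⁻¹) ^ 2 * ((M' : ℝ)⁻¹) ^ 2 *
      (1728 * (M * M' * (17 / 5 * (1 + Real.log M) * (4 * M' / r))) * NN d L) =
      (1728 * (17 / 5) * 4) * ((1 + Real.log M) / (M * r) * NN d L) := by
    field_simp
  have e2 : 40000 * (1 + Real.log M) / (M * r) * NN d L =
      40000 * ((1 + Real.log M) / (M * r) * NN d L) := by ring
  rw [e1, e2]
  refine mul_le_mul_of_nonneg_right (by norm_num) (by positivity)

end Pool.Agent.W240.BK
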