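import Pool.Agent.W788.BK.Stm

/-! The variance of `tr (R Z)`. -/

set_option autoImplicit false
set_option linter.unusedSectionVars false

open scoped BigOperators Matrix
open MeasureTheory

namespace Pool.Agent.W240.BK

open Pool.Agent.W788.BK

section basic

variable {n m : Type} [Fintype n] [DecidableEq n] [Fintype m] [DecidableEq m]

instance instProbPP (μ : Measure ℝ) [IsProbabilityMeasure μ] :
    IsProbabilityMeasure (PP m μ) := by
  unfold PP
  infer_instance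

theorem ae_PP (μ : Measure ℝ) [IsProbabilityMeasure μ] {β : ℝ} (h : ∀ᵐ s ∂μ, |s| ≤ β) :
    ∀ᵐ V ∂(PP m μ), ∀ y, |V y| ≤ β := by
  refine ae_all_iff.2 fun y => ?_
  unfold PP
  exact (measurePreserving_eval (fun _ : m => μ) y).quasiMeasurePreserving.ae h

theorem continuous_XX (X0 : Matrix n n ℂ) (A : m → Matrix n n ℂ) : Continuous (XX X0 A) := by
  unfold XX
  refine continuous_const.add (continuous_finset_sum _ fun y _ => ?_)
  exact (Complex.continuous_ofReal.comp (continuous_apply y)).smul continuous_const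

variable {X0 : Matrix n n ℂ} {A : m → Matrix n n ℂ} {η : ℝ}

theorem continuous_RR (h0 : X0.IsHermitian) (hA : ∀ y, (A y).IsHermitian) (hη : 0 < η) :
    Continuous (RR X0 A η) := by
  have h1 : Continuous fun V : m → ℝ =>
      XX X0 A V - ((η : ℂ) * Complex.I) • (1 : Matrix n n ℂ) :=
    (continuous_XX X0 A).sub continuous_const
  have h2 : ∀ V : m → ℝ,
      (XX X0 A V - ((η : ℂ) * Complex.I) • (1 : Matrix n n ℂ)).det ≠ 0 := by
    intro V
    have := (Matrix.isUnit_iff_isUnit_det _).1 (isUnit_shift (XX_herm h0 hA V) η hη)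
    exact this.ne_zero
  have h3 : RR X0 A η = fun V =>
      ((XX X0 A V - ((η : ℂ) * Complex.I) • (1 : Matrix n n ℂ)).det)⁻¹ •
      (XX X0 A V - ((η : ℂ) * Complex.I) • (1 : Matrix n n ℂ)).adjugate := by
    funext V
    unfold RR
    rw [Matrix.inv_def, Ring.inverse_eq_inv']
  rw [h3]
  exact (h1.matrix_det.inv₀ h2).smul h1.matrix_adjugate

theorem nsq_single (j : n) : nsq (Pi.single j 1 : n → ℂ) = 1 := by
  unfold nsq
  rw [Finset.sum_eq_single j]
  · simp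
  · intro i _ hij
    simp [Pi.single_eq_of_ne hij]
  · intro h
    exact absurd (Finset.mem_univ j) h

theorem RR_entry (h0 : X0.IsHermitian) (hA : ∀ y, (A y).IsHermitian) (hη : 0 < η) (V : m → ℝ)
    (i j : n) : ‖RR X0 A η V i j‖ ≤ η⁻¹ := by
  have h1 := RR_bd h0 hA hη V (Pi.single j 1)
  rw [nsq_single, mul_one] at h1
  have h3 : ‖RR X0 A η V i j‖ ^ 2 ≤ nsq (RR X0 A η V *ᵥ Pi.single j 1) := by
    have e1 : RR X0 A η V i j = (RR X0 A η V *ᵥ Pi.single j 1) i := by simp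
    rw [e1]
    exact Finset.single_le_sum (f := fun i => ‖(RR X0 A η V *ᵥ Pi.single j 1) i‖ ^ 2)
      (fun _ _ => by positivity) (Finset.mem_univ i)
  have h4 : ‖RR X0 A η V i j‖ ^ 2 ≤ (η⁻¹) ^ 2 := by
    rw [inv_pow]
    exact h3.trans h1
  exact le_of_sq_le_sq h4 (by positivity)

/-- the Hilbert-Schmidt norm as a trace -/
theorem hs_trace (B : Matrix n n ℂ) : ((hs B : ℝ) : ℂ) = (Bᴴ * B).trace := by
  rw [hs_col]
  push_cast
  unfold Matrix.trace
  refine Finset.sum_congr rfl fun j _ => ?_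
  rw [nsq_eq]
  rfl

theorem hs_one_le (h0 : X0.IsHermitian) (hA : ∀ y, (A y).IsHermitian) (hη : 0 < η)
    (V : m → ℝ) : hs (RR X0 A η V) ≤ (η ^ 2)⁻¹ * hs (1 : Matrix n n ℂ) := by
  have := hs_mul_left (RR X0 A η V) 1 _ (RR_bd h0 hA hη V)
  rwa [mul_one] at this

theorem trace_bd (h0 : X0.IsHermitian) (hA : ∀ y, (A y).IsHermitian) (hη : 0 < η)
    (Z : Matrix n n ℂ) : ∃ C : ℝ, 0 ≤ C ∧ ∀ V, ‖(RR X0 A η V * Z).trace‖ ≤ C := by
  refine ⟨Real.sqrt ((η ^ 2)⁻¹ * hs (1 : Matrix n n ℂ) * hs Z), Real.sqrt_nonneg _, fun V => ?_⟩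
  refine Real.le_sqrt_of_sq_le ((cs_trace _ _).trans ?_)
  exact mul_le_mul_of_nonneg_right (hs_one_le h0 hA hη V) (hs_nonneg Z)

theorem hs_A_le {a v2 Q : ℝ} (h : Adm X0 A a v2 Q) (y : m) : hs (A y) ≤ Q := by
  have h1 := h.hQ (A y)
  have h2 : ‖(A y * A y).trace‖ ^ 2 ≤ Q * hs (A y) :=
    (Finset.single_le_sum (f := fun z => ‖(A z * A y).trace‖ ^ 2)
      (fun _ _ => by positivity) (Finset.mem_univ y)).trans h1
  have h3 : ((hs (A y) : ℝ) : ℂ) = (A y * A y).trace := by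
    have := hs_trace (A y)
    rwa [(h.hA y).eq] at this
  rw [← h3, Complex.norm_real, Real.norm_of_nonneg (hs_nonneg _)] at h2
  rcases (hs_nonneg (A y)).eq_or_lt with h4 | h4
  · rw [← h4]
    exact h.hQ0
  · rw [sq] at h2
    exact le_of_mul_le_mul_right h2 h4

theorem sum_hs_AW {a v2 Q : ℝ} (h : Adm X0 A a v2 Q) (W : Matrix n n ℂ) :
    ∑ y, hs (A y * W) ≤ v2 * hs W := by
  rw [hs_col W, Finset.mul_sum]
  have h1 : ∀ y, hs (A y * W) = ∑ j, nsq (A y *ᵥ fun i => W i j) := fun y => by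
    rw [hs_col]
    rfl
  rw [Finset.sum_congr rfl fun y _ => h1 y, Finset.sum_comm]
  exact Finset.sum_le_sum fun j _ => h.hv _

theorem diff_eq (h0 : X0.IsHermitian) (hA : ∀ y, (A y).IsHermitian) (hη : 0 < η) (V : m → ℝ)
    (y : m) (Z : Matrix n n ℂ) :
    (RR X0 A η V * Z).trace - (RR X0 A η (Function.update V y 0) * Z).trace =
      -((V y : ℂ) * (A y * (RR X0 A η V * Z * RR X0 A η V)).trace) -
      (V y : ℂ) ^ 2 * ((A y * RR X0 A η (Function.update V y 0)) *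
        (A y * (RR X0 A η V * Z * RR X0 A η V))).trace := by
  obtain ⟨h1, h2⟩ := RR_update h0 hA hη V y
  generalize RR X0 A η (Function.update V y 0) = S at h1 h2 ⊢
  generalize RR X0 A η V = R at h1 h2 ⊢
  generalize A y = B at h1 h2 ⊢
  generalize (V y : ℂ) = c at h1 h2 ⊢
  have e1 : S = R + c • (S * B * R) := by
    rw [eq_sub_iff_add_eq] at h2
    exact h2.symm
  have e2 : R - S = -(c • (R * B * R)) - c ^ 2 • (R * B * (S * (B * R))) := by
    have e3 : R - S = -(c • (R * B * S)) := by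
      conv_lhs => rw [h1]
      abel
    rw [e3]
    conv_lhs => rw [e1]
    rw [mul_add, mul_smul_comm, smul_add, smul_smul, ← sq, neg_add, sub_eq_add_neg,
      mul_assoc S B R]
  rw [← Matrix.trace_sub, ← sub_mul, e2, sub_mul, neg_mul, smul_mul_assoc, smul_mul_assoc,
    Matrix.trace_sub, Matrix.trace_neg, Matrix.trace_smul, Matrix.trace_smul, smul_eq_mul,
    smul_eq_mul]
  have t1 : (R * B * R * Z).trace = (B * (R * Z * R)).trace := by
    rw [mul_assoc, mul_assoc, Matrix.trace_mul_comm]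
    congr 1
    noncomm_ring
  have t2 : (R * B * (S * (B * R)) * Z).trace = (B * S * (B * (R * Z * R))).trace := by
    rw [mul_assoc, mul_assoc, Matrix.trace_mul_comm]
    congr 1
    noncomm_ring
  rw [t1, t2]

theorem point {a v2 Q : ℝ} (h : Adm X0 A a v2 Q) {β : ℝ} (hβ : 0 < β) (hη : 0 < η)
    (hη1 : η ≤ 1) (hv : β ^ 2 * v2 ≤ 1) (Z : Matrix n n ℂ) (V : m → ℝ)
    (hV : ∀ y, |V y| ≤ β) :
    ∑ y, ‖(RR X0 A η V * Z).trace - (RR X0 A η (Function.update V y 0) * Z).trace‖ ^ 2 ≤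
      4 * β ^ 2 * Q / η ^ 6 * hs Z := by
  obtain ⟨W, hW⟩ : ∃ W, W = RR X0 A η V * Z * RR X0 A η V := ⟨_, rfl⟩
  have hQ0 := h.hQ0
  have hWn := hs_nonneg W
  have hWle : hs W ≤ (η ^ 2)⁻¹ * ((η ^ 2)⁻¹ * hs Z) := by
    rw [hW]
    refine (hs_mul_right _ _ _ (RRH_bd h.hX0 h.hA hη V)).trans ?_
    exact mul_le_mul_of_nonneg_left (hs_mul_left _ _ _ (RR_bd h.hX0 h.hA hη V)) (by positivity)
  have h1 : ∀ y, ‖(RR X0 A η V * Z).trace -
      (RR X0 A η (Function.update V y 0) * Z).trace‖ ^ 2 ≤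
      2 * β ^ 2 * ‖(A y * W).trace‖ ^ 2 + 2 * β ^ 4 * ((η ^ 2)⁻¹ * Q * hs (A y * W)) := by
    intro y
    rw [diff_eq h.hX0 h.hA hη V y Z, ← hW]
    have b1 : ‖(V y : ℂ)‖ ≤ β := by
      rw [Complex.norm_real]
      exact hV y
    have b2 : ‖(A y * RR X0 A η (Function.update V y 0) * (A y * W)).trace‖ ^ 2 ≤
        (η ^ 2)⁻¹ * Q * hs (A y * W) := by
      refine (cs_trace _ _).trans ?_
      refine mul_le_mul_of_nonneg_right ?_ (hs_nonneg _)
      refine (hs_mul_right _ _ _ (RRH_bd h.hX0 h.hA hη _)).trans ?_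
      exact mul_le_mul_of_nonneg_left (hs_A_le h y) (by positivity)
    have b3 : ‖-((V y : ℂ) * (A y * W).trace) -
        (V y : ℂ) ^ 2 * (A y * RR X0 A η (Function.update V y 0) * (A y * W)).trace‖ ≤
        β * ‖(A y * W).trace‖ +
        β ^ 2 * ‖(A y * RR X0 A η (Function.update V y 0) * (A y * W)).trace‖ := by
      refine (norm_sub_le _ _).trans ?_
      rw [norm_neg, norm_mul, norm_mul, norm_pow]
      gcongr
    calc _ ≤ (β * ‖(A y * W).trace‖ +
        β ^ 2 * ‖(A y * RR X0 A η (Function.update V y 0) * (A y * W)).trace‖) ^ 2 :=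
          pow_le_pow_left₀ (norm_nonneg _) b3 2
      _ ≤ 2 * β ^ 2 * ‖(A y * W).trace‖ ^ 2 + 2 * β ^ 4 *
        ‖(A y * RR X0 A η (Function.update V y 0) * (A y * W)).trace‖ ^ 2 := by
          nlinarith [sq_nonneg (β * ‖(A y * W).trace‖ -
            β ^ 2 * ‖(A y * RR X0 A η (Function.update V y 0) * (A y * W)).trace‖)]
      _ ≤ _ := by gcongr
  have h2 : ∑ y, ‖(RR X0 A η V * Z).trace -
      (RR X0 A η (Function.update V y 0) * Z).trace‖ ^ 2 ≤
      2 * β ^ 2 * (Q * hs W) + 2 * β ^ 4 * ((η ^ 2)⁻¹ * Q * (v2 * hs W)) := by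
    refine (Finset.sum_le_sum fun y _ => h1 y).trans ?_
    rw [Finset.sum_add_distrib, ← Finset.mul_sum, ← Finset.mul_sum, ← Finset.mul_sum]
    have := h.hQ W
    have := sum_hs_AW h W
    gcongr
  have h3 : 2 * β ^ 4 * ((η ^ 2)⁻¹ * Q * (v2 * hs W)) ≤
      2 * β ^ 2 * ((η ^ 2)⁻¹ * Q * hs W) := by
    have e1 : 2 * β ^ 4 * ((η ^ 2)⁻¹ * Q * (v2 * hs W)) =
      (β ^ 2 * v2) * (2 * β ^ 2 * ((η ^ 2)⁻¹ * Q * hs W)) := by ring
    rw [e1]
    have : 0 ≤ 2 * β ^ 2 * ((η ^ 2)⁻¹ * Q * hs W) := by positivity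
    exact mul_le_of_le_one_left this hv
  have h4 : 1 ≤ (η ^ 2)⁻¹ := by
    rw [one_le_inv₀ (by positivity)]
    exact pow_le_one₀ hη.le hη1
  have h5 : 2 * β ^ 2 * (Q * hs W) ≤ 2 * β ^ 2 * ((η ^ 2)⁻¹ * Q * hs W) := by
    rw [mul_assoc ((η ^ 2)⁻¹)]
    have : 0 ≤ Q * hs W := by positivity
    exact mul_le_mul_of_nonneg_left (le_mul_of_one_le_left this h4) (by positivity)
  calc _ ≤ 4 * β ^ 2 * ((η ^ 2)⁻¹ * Q * hs W) := by linarith
    _ ≤ 4 * β ^ 2 * ((η ^ 2)⁻¹ * Q * ((η ^ 2)⁻¹ * ((η ^ 2)⁻¹ * hs Z))) := by gcongr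
    _ = 4 * β ^ 2 * Q / η ^ 6 * hs Z := by
      field_simp

end basic

theorem var (h : S_ES) : S_VAR := by
  intro n m _ _ _ _ X0 A a v2 Q hadm μ _ β η hβ hμ hη hη1 hv Z
  have hc : Continuous fun V => (RR X0 A η V * Z).trace :=
    ((continuous_RR hadm.hX0 hadm.hA hη).matrix_mul continuous_const).matrix_trace
  obtain ⟨C, hC0, hC⟩ := trace_bd (A := A) hadm.hX0 hadm.hA hη Z
  have h1 := h m μ (fun V => (RR X0 A η V * Z).trace) hc ⟨C, hC⟩
  refine h1.trans ?_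
  have hint : ∀ y, Integrable (fun V : m → ℝ => ‖(RR X0 A η V * Z).trace -
      (RR X0 A η (Function.update V y 0) * Z).trace‖ ^ 2) (PP m μ) := by
    intro y
    have c1 : Continuous fun V : m → ℝ => Function.update V y (0 : ℝ) :=
      continuous_id.update y continuous_const
    have c2 : Continuous fun V : m → ℝ => ‖(RR X0 A η V * Z).trace -
      (RR X0 A η (Function.update V y 0) * Z).trace‖ ^ 2 :=
      ((hc.sub (hc.comp c1)).norm).pow 2
    refine Integrable.of_bound c2.aestronglyMeasurable ((C + C) ^ 2) ?_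
    refine Filter.Eventually.of_forall fun V => ?_
    rw [Real.norm_of_nonneg (by positivity)]
    refine pow_le_pow_left₀ (norm_nonneg _) ((norm_sub_le _ _).trans ?_) 2
    exact add_le_add (hC _) (hC _)
  rw [← integral_finset_sum _ fun y _ => hint y]
  have h2 : ∫ V, ∑ y, ‖(RR X0 A η V * Z).trace -
      (RR X0 A η (Function.update V y 0) * Z).trace‖ ^ 2 ∂(PP m μ) ≤
      ∫ _, 4 * β ^ 2 * Q / η ^ 6 * hs Z ∂(PP m μ) := by
    refine integral_mono_ae (integrable_finset_sum _ fun y _ => hint y)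
      (integrable_const _) ?_
    filter_upwards [ae_PP μ hμ] with V hV
    exact point hadm hβ hη hη1 hv Z V hV
  rwa [integral_const, smul_eq_mul, probReal_univ, one_mul] at h2

end Pool.Agent.W240.BK
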